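import Mathlib

open Set Cardinal Ordinal Order
open scoped Ordinal Cardinal

namespace H68.CL

theorem countable_iff {α : Type*} (s : Set α) : s.Countable ↔ #s < ℵ₁ := by
  rw [lt_aleph_one_iff, Cardinal.le_aleph0_iff_set_countable]

theorem countable_Iio {a : Ordinal.{0}} (h : a < ω_ 1) : (Iio a).Countable := by
  rw [lt_omega_iff_card_lt] at h
  rw [countable_iff, Cardinal.mk_Iio_ordinal]
  have := Cardinal.lift_lt.{0, 1}.2 h
  simpa using this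

theorem countable_Iic {a : Ordinal.{0}} (h : a < ω_ 1) : (Iic a).Countable := by
  have h1 : a + 1 < ω_ 1 := (Cardinal.isSuccLimit_omega 1).add_one_lt h
  refine (countable_Iio h1).mono ?_
  intro x hx
  exact Order.lt_add_one_iff.2 (mem_Iic.1 hx)

theorem mk_Iio_le {a : Ordinal.{0}} (h : a < ω_ 2) : #(Iio a) ≤ ℵ₁ := by
  rw [lt_omega_iff_card_lt] at h
  rw [Cardinal.mk_Iio_ordinal]
  have h2 : (ℵ_ 2 : Cardinal.{0}) = succ ℵ₁ := by
    rw [succ_aleph]; norm_num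
  rw [h2, Order.lt_succ_iff] at h
  have := Cardinal.lift_le.{1, 0}.2 h
  simpa using this

theorem omega_one_lt_two : (ω_ 1 : Ordinal.{0}) < ω_ 2 := by
  rw [omega_lt_omega]; norm_num

theorem two_pos : (0 : Ordinal.{0}) < ω_ 2 := omega_pos 2

theorem succ_lt_two {a : Ordinal.{0}} (h : a < ω_ 2) : a + 1 < ω_ 2 :=
  (Cardinal.isSuccLimit_omega 2).add_one_lt h

theorem succ_lt_one {a : Ordinal.{0}} (h : a < ω_ 1) : a + 1 < ω_ 1 :=
  (Cardinal.isSuccLimit_omega 1).add_one_lt h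

theorem cof_two : (ω_ 2 : Ordinal.{1}).cof = ℵ_ 2 := by
  have := cof_omega_add_one.{1} 1
  have h : (1 : Ordinal.{1}) + 1 = 2 := by norm_num
  rwa [h] at this

theorem exists_bound_two {ι : Type 1} (h : #ι ≤ ℵ₁) (g : ι → Ordinal.{0})
    (hg : ∀ i, g i < ω_ 2) : ∃ γ < (ω_ 2 : Ordinal.{0}), ∀ i, g i ≤ γ := by
  refine ⟨sSup (range g), ?_, ?_⟩
  · apply Ordinal.sSup_lt_of_lt_cof
    · have h1 : (Ordinal.lift.{1} (ω_ 2 : Ordinal.{0})).cof = ℵ_ 2 := by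
        rw [Ordinal.lift_omega]; simpa using cof_two
      rw [h1]
      refine (mk_range_le.trans h).trans_lt ?_
      rw [aleph_lt_aleph]; norm_num
    · rintro _ ⟨i, rfl⟩; exact hg i
  · intro i
    refine le_csSup ⟨ω_ 2, ?_⟩ ⟨i, rfl⟩
    rintro _ ⟨i, rfl⟩; exact (hg i).le

theorem exists_bound_one {s : Set Ordinal.{0}} (hs : s.Countable)
    (hg : ∀ a ∈ s, a < ω_ 1) : ∃ γ < (ω_ 1 : Ordinal.{0}), ∀ a ∈ s, a ≤ γ := by
  refine ⟨sSup s, ?_, ?_⟩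
  · apply Ordinal.sSup_lt_of_lt_cof
    · have h1 : (Ordinal.lift.{1} (ω_ 1 : Ordinal.{0})).cof = ℵ₁ := by
        rw [Ordinal.lift_omega]; simp
      rw [h1]
      exact (countable_iff s).1 hs
    · exact hg
  · intro a ha
    exact le_csSup ⟨ω_ 1, fun b hb => (hg b hb).le⟩ ha

theorem exists_bound_two_countable {s : Set Ordinal.{0}} (hs : s.Countable)
    (hg : ∀ a ∈ s, a < ω_ 2) : ∃ γ < (ω_ 2 : Ordinal.{0}), ∀ a ∈ s, a ≤ γ := by
  have h1 : #s ≤ ℵ₁ := by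
    have := (countable_iff s).1 hs
    exact this.le
  obtain ⟨γ, hγ, h⟩ := exists_bound_two h1 (fun a => a.1) (fun a => hg a.1 a.2)
  exact ⟨γ, hγ, fun a ha => h ⟨a, ha⟩⟩

theorem exists_bound_Iic (G : Ordinal.{0} → Ordinal.{0}) (hG : ∀ ζ < ω_ 2, G ζ < ω_ 2)
    {ζ : Ordinal.{0}} (hζ : ζ < ω_ 2) : ∃ γ < (ω_ 2 : Ordinal.{0}), ∀ ξ ≤ ζ, G ξ ≤ γ := by
  obtain ⟨γ, hγ, h⟩ := exists_bound_two (mk_Iio_le (succ_lt_two hζ)) (fun a => G a.1)
    (fun a => hG a.1 (lt_trans a.2 (succ_lt_two hζ)))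
  exact ⟨γ, hγ, fun ξ hξ => h ⟨ξ, Order.lt_add_one_iff.2 hξ⟩⟩

/-- transfinite iteration of `G` starting from `b`. -/
noncomputable def iter (G : Ordinal.{0} → Ordinal.{0}) (b : Ordinal.{0}) (i : Ordinal.{0}) :
    Ordinal.{0} :=
  max b (⨆ j : Iio i, (G (iter G b j.1) + 1))
termination_by i
decreasing_by exact j.2

theorem iter_eq (G : Ordinal.{0} → Ordinal.{0}) (b i : Ordinal.{0}) :
    iter G b i = max b (⨆ j : Iio i, (G (iter G b j.1) + 1)) := by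
  rw [iter]

theorem iter_lt {G : Ordinal.{0} → Ordinal.{0}} (hG : ∀ ζ < ω_ 2, G ζ < ω_ 2) {b : Ordinal.{0}}
    (hb : b < ω_ 2) (i : Ordinal.{0}) (hi : i < ω_ 2) : iter G b i < ω_ 2 := by
  induction i using WellFoundedLT.induction with
  | _ i ih =>
    rw [iter_eq]
    obtain ⟨γ, hγ, h⟩ := exists_bound_two (mk_Iio_le hi) (fun j => G (iter G b j.1) + 1)
      (fun j => succ_lt_two (hG _ (ih j.1 j.2 (lt_trans j.2 hi))))
    refine max_lt hb (lt_of_le_of_lt ?_ hγ)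
    exact Ordinal.iSup_le h

theorem lt_iter {G : Ordinal.{0} → Ordinal.{0}} (b : Ordinal.{0}) {i j : Ordinal.{0}}
    (h : j < i) : G (iter G b j) < iter G b i := by
  rw [iter_eq G b i]
  refine lt_of_lt_of_le ?_ (le_max_right _ _)
  have := Ordinal.le_iSup (fun j : Iio i => (G (iter G b j.1) + 1)) ⟨j, h⟩
  exact lt_of_lt_of_le (Order.lt_add_one_iff.2 le_rfl) this

theorem exists_closed (G : Ordinal.{0} → Ordinal.{0}) (hG : ∀ ζ < ω_ 2, G ζ < ω_ 2)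
    {b : Ordinal.{0}} (hb : b < ω_ 2) :
    ∃ δ < (ω_ 2 : Ordinal.{0}), b < δ ∧ (∀ ζ < δ, G ζ < δ) ∧ (∀ ζ < δ, ζ + 1 < δ) ∧
      ∀ s : Set Ordinal.{0}, s.Countable → (∀ a ∈ s, a < δ) → ∃ μ < δ, ∀ a ∈ s, a ≤ μ := by
  classical
  have h0 : ∀ ζ : Ordinal.{0}, ∃ γ : Ordinal.{0}, ζ < ω_ 2 →
      (γ < ω_ 2 ∧ ζ < γ ∧ ∀ ξ ≤ ζ, G ξ ≤ γ) := by
    intro ζ
    by_cases hζ : ζ < ω_ 2
    · obtain ⟨γ, hγ, h⟩ := exists_bound_Iic G hG hζ
      refine ⟨max γ (ζ + 1), fun _ => ⟨max_lt hγ (succ_lt_two hζ), ?_, ?_⟩⟩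
      · exact lt_of_lt_of_le (Order.lt_add_one_iff.2 le_rfl) (le_max_right _ _)
      · intro ξ hξ; exact (h ξ hξ).trans (le_max_left _ _)
    · exact ⟨0, fun h => absurd h hζ⟩
  choose H hH using h0
  have hH1 : ∀ ζ < ω_ 2, H ζ < ω_ 2 := fun ζ h => (hH ζ h).1
  have hit := fun i (hi : i < ω_ 2) => iter_lt hH1 hb i hi
  obtain ⟨γ, hγ, hγ1⟩ := exists_bound_two (mk_Iio_le omega_one_lt_two)
    (fun i => iter H b i.1 + 1) (fun i => succ_lt_two (hit _ (lt_trans i.2 omega_one_lt_two)))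
  set δ : Ordinal.{0} := ⨆ i : Iio (ω_ 1 : Ordinal.{0}), (iter H b i.1 + 1) with hδ
  have hδ2 : δ < ω_ 2 := lt_of_le_of_lt (Ordinal.iSup_le hγ1) hγ
  have hle : ∀ i < (ω_ 1 : Ordinal.{0}), iter H b i < δ := by
    intro i hi
    have := Ordinal.le_iSup (fun i : Iio (ω_ 1 : Ordinal.{0}) => (iter H b i.1 + 1)) ⟨i, hi⟩
    exact lt_of_lt_of_le (Order.lt_add_one_iff.2 le_rfl) this
  have hex : ∀ ζ < δ, ∃ i < (ω_ 1 : Ordinal.{0}), ζ ≤ iter H b i := by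
    intro ζ hζ
    obtain ⟨i, hi⟩ := Ordinal.lt_iSup_iff.1 hζ
    exact ⟨i.1, i.2, Order.lt_add_one_iff.1 hi⟩
  have hkey : ∀ ζ < δ, ∃ i < (ω_ 1 : Ordinal.{0}), ζ < iter H b i ∧ G ζ ≤ iter H b i := by
    intro ζ hζ
    obtain ⟨i, hi, h⟩ := hex ζ hζ
    have h2 := hH (iter H b i) (hit i (lt_trans hi omega_one_lt_two))
    have h3 : H (iter H b i) < iter H b (i + 1) := lt_iter b (Order.lt_add_one_iff.2 le_rfl)
    refine ⟨i + 1, succ_lt_one hi, ?_, ?_⟩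
    · exact lt_of_le_of_lt h (h2.2.1.trans h3)
    · exact (h2.2.2 ζ h).trans h3.le
  refine ⟨δ, hδ2, ?_, ?_, ?_, ?_⟩
  · have : b ≤ iter H b 0 := by rw [iter_eq]; exact le_max_left _ _
    exact lt_of_le_of_lt this (hle 0 (omega_pos 1))
  · intro ζ hζ
    obtain ⟨i, hi, h1, h2⟩ := hkey ζ hζ
    exact lt_of_le_of_lt h2 (hle i hi)
  · intro ζ hζ
    obtain ⟨i, hi, h1, h2⟩ := hkey ζ hζ
    exact lt_of_le_of_lt (Order.add_one_le_iff.2 h1) (hle i hi)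
  · intro s hs hsδ
    choose! k hk1 hk2 using hex
    obtain ⟨ν, hν, h⟩ := exists_bound_one (hs.image k) (by
      rintro _ ⟨a, ha, rfl⟩; exact hk1 a (hsδ a ha))
    refine ⟨iter H b (ν + 1), hle _ (succ_lt_one hν), ?_⟩
    intro a ha
    have h1 : k a ≤ ν := h _ (mem_image_of_mem k ha)
    have h2 : k a < ν + 1 := Order.lt_add_one_iff.2 h1
    have h3 := hk2 a (hsδ a ha)
    have h4 := hH (iter H b (k a)) (hit _ (lt_trans (hk1 a (hsδ a ha)) omega_one_lt_two))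
    exact (h3.trans h4.2.1.le).trans (lt_iter b h2).le

end H68.CL
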