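import Pool.Agent.H68.CL.Node

open Set Cardinal Ordinal Order
open scoped Ordinal Cardinal

namespace H68.CL

/-- rank of `ξ` in a set of ordinals. -/
noncomputable def rk (F : Set Ordinal.{0}) (ξ : Ordinal.{0}) : Ordinal.{0} :=
  ⨆ ζ : {ζ : Iio ξ // ζ.1 ∈ F}, (rk F ζ.1.1 + 1)
termination_by ξ
decreasing_by exact ζ.1.2

theorem rk_eq (F : Set Ordinal.{0}) (ξ : Ordinal.{0}) :
    rk F ξ = ⨆ ζ : {ζ : Iio ξ // ζ.1 ∈ F}, (rk F ζ.1.1 + 1) := by rw [rk]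

theorem rk_lt {F : Set Ordinal.{0}} {ζ ξ : Ordinal.{0}} (h : ζ < ξ) (hζ : ζ ∈ F) :
    rk F ζ < rk F ξ := by
  rw [rk_eq F ξ]
  have := Ordinal.le_iSup (fun ζ : {ζ : Iio ξ // ζ.1 ∈ F} => (rk F ζ.1.1 + 1)) ⟨⟨ζ, h⟩, hζ⟩
  exact lt_of_lt_of_le (Order.lt_add_one_iff.2 le_rfl) this

theorem rk_mono {F F' : Set Ordinal.{0}} (ξ : Ordinal.{0}) (h : ∀ ζ < ξ, ζ ∈ F → ζ ∈ F') :
    rk F ξ ≤ rk F' ξ := by
  induction ξ using WellFoundedLT.induction with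
  | _ ξ ih =>
    rw [rk_eq F ξ]
    apply Ordinal.iSup_le
    rintro ⟨⟨ζ, hζ⟩, hζF⟩
    have h1 := ih ζ hζ (fun η hη => h η (lt_trans hη hζ))
    exact Order.add_one_le_iff.2 (lt_of_le_of_lt h1 (rk_lt hζ (h ζ hζ hζF)))

theorem rk_congr {F F' : Set Ordinal.{0}} (ξ : Ordinal.{0}) (h : ∀ ζ < ξ, (ζ ∈ F ↔ ζ ∈ F')) :
    rk F ξ = rk F' ξ :=
  le_antisymm (rk_mono ξ fun ζ hζ => (h ζ hζ).1) (rk_mono ξ fun ζ hζ => (h ζ hζ).2)

theorem rk_inj {F : Set Ordinal.{0}} {ζ ξ : Ordinal.{0}} (hζ : ζ ∈ F) (hξ : ξ ∈ F)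
    (h : rk F ζ = rk F ξ) : ζ = ξ := by
  rcases lt_trichotomy ζ ξ with h1 | h1 | h1
  · exact absurd h (rk_lt h1 hζ).ne
  · exact h1
  · exact absurd h (rk_lt h1 hξ).ne'

theorem rk_lt_one {F : Set Ordinal.{0}} (hF : F.Countable) (ξ : Ordinal.{0}) :
    rk F ξ < ω_ 1 := by
  induction ξ using WellFoundedLT.induction with
  | _ ξ ih =>
    rw [rk_eq]
    have : Countable {ζ : Iio ξ // ζ.1 ∈ F} := by
      have := hF.to_subtype
      exact Function.Injective.countable (f := fun ζ : {ζ : Iio ξ // ζ.1 ∈ F} => (⟨ζ.1.1, ζ.2⟩ : F))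
        (fun a b h => Subtype.ext (Subtype.ext (Subtype.mk.inj h)))
    apply Ordinal.iSup_lt_omega_one
    intro ζ
    exact succ_lt_one (ih ζ.1.1 ζ.1.2)

variable {e : Ordinal.{0} → Ordinal.{0} → Ordinal.{0}}

/-- the low part of a pair. -/
def low (x y : Ordinal.{0} → Ordinal.{0}) (α ν : Ordinal.{0}) : Set Ordinal.{0} :=
  {ξ | ξ < α ∧ (x ξ ≤ ν ∨ y ξ ≤ ν)}

theorem no_cross {x y x' y' : Ordinal.{0} → Ordinal.{0}} {α α' ν : Ordinal.{0}}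
    (hx : Node e α x) (hx' : Node e α' x')
    (hν : ∀ ξ < α, x ξ ≠ y ξ → x ξ ≤ ν ∧ y ξ ≤ ν) (hνα : y α ≤ ν)
    (hν' : ∀ ξ < α', x' ξ ≠ y' ξ → x' ξ ≤ ν ∧ y' ξ ≤ ν)
    (h1 : ∀ ξ ∈ low x y α ν, ∃ ξ' ∈ low x' y' α' ν, rk (low x' y' α' ν) ξ' = rk (low x y α ν) ξ ∧
      x' ξ' = x ξ ∧ y' ξ' = y ξ)
    (h2 : ∀ ξ' ∈ low x' y' α' ν, ∃ ξ ∈ low x y α ν, rk (low x y α ν) ξ = rk (low x' y' α' ν) ξ' ∧
      x ξ = x' ξ' ∧ y ξ = y' ξ') :
    ¬ (LexLt x x' ∧ LexLt y' y) := by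
  rintro ⟨⟨γ, hγ, hγ2⟩, ⟨γ', hγ', hγ'2⟩⟩
  have hα'γ : γ < α' := by
    by_contra h
    rw [hx'.zero γ (not_lt.1 h)] at hγ2
    exact absurd hγ2 not_lt_zero
  -- the minimum of the two
  obtain ⟨g, hgγ, hgγ', hg⟩ : ∃ g, g ≤ γ ∧ g ≤ γ' ∧ (g = γ ∨ g = γ') := by
    rcases le_total γ γ' with h | h
    · exact ⟨γ, le_rfl, h, Or.inl rfl⟩
    · exact ⟨γ', h, le_rfl, Or.inr rfl⟩
  have hgα' : g < α' := lt_of_le_of_lt hgγ hα'γ
  have bx : ∀ ξ < g, x ξ = x' ξ := fun ξ hξ => hγ ξ (lt_of_lt_of_le hξ hgγ)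
  have by' : ∀ ξ < g, y ξ = y' ξ := fun ξ hξ => (hγ' ξ (lt_of_lt_of_le hξ hgγ')).symm
  have gx : x g ≤ x' g := by
    rcases hgγ.eq_or_lt with h | h
    · rw [h]; exact hγ2.le
    · exact (hγ g h).le
  have gy : y' g ≤ y g := by
    rcases hgγ'.eq_or_lt with h | h
    · rw [h]; exact hγ'2.le
    · exact (hγ' g h).le
  have gne : x g ≠ x' g ∨ y g ≠ y' g := by
    rcases hg with h | h
    · left; rw [h]; exact hγ2.ne
    · right; rw [h]; exact hγ'2.ne'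
  have hmem : ∀ ζ < g, (ζ ∈ low x y α ν ↔ ζ ∈ low x' y' α' ν) := by
    intro ζ hζ
    have hζα' : ζ < α' := lt_trans hζ hgα'
    have hζα : ζ < α := by
      by_contra h
      have h3 := hx.zero ζ (not_lt.1 h)
      rw [bx ζ hζ] at h3
      exact absurd h3 (hx'.pos ζ hζα').ne'
    simp only [low, Set.mem_ofPred_eq, hζα, hζα', bx ζ hζ, by' ζ hζ, true_and]
  have hrk : rk (low x y α ν) g = rk (low x' y' α' ν) g := rk_congr g hmem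
  by_cases hgα : g < α
  · by_cases hF : g ∈ low x y α ν
    · by_cases hF' : g ∈ low x' y' α' ν
      · obtain ⟨ξ', h3, h4, h5, h6⟩ := h1 g hF
        have h7 : ξ' = g := rk_inj h3 hF' (by rw [h4, hrk])
        subst h7
        rcases gne with h | h
        · exact h h5.symm
        · exact h h6.symm
      · have h3 : y g ≤ ν := by
          by_cases h4 : x g = y g
          · rcases hF.2 with h5 | h5
            · rw [← h4]; exact h5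
            · exact h5
          · exact (hν g hgα h4).2
        apply hF'
        exact ⟨hgα', Or.inr (gy.trans h3)⟩
    · by_cases hF' : g ∈ low x' y' α' ν
      · have h3 : x' g ≤ ν := by
          by_cases h4 : x' g = y' g
          · rcases hF'.2 with h5 | h5
            · exact h5
            · rw [h4]; exact h5
          · exact (hν' g hgα' h4).1
        apply hF
        exact ⟨hgα, Or.inl (gx.trans h3)⟩
      · have h3 : x g = y g := by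
          by_contra h4
          exact hF ⟨hgα, Or.inl (hν g hgα h4).1⟩
        have h4 : x' g = y' g := by
          by_contra h4
          exact hF' ⟨hgα', Or.inl (hν' g hgα' h4).1⟩
        have h5 : x g = x' g := le_antisymm gx (by rw [h4, h3]; exact gy)
        rcases gne with h | h
        · exact h h5
        · exact h (by rw [← h3, ← h4, h5])
  · have hαg : α ≤ g := not_lt.1 hgα
    have hαg' : α = g := by
      rcases hαg.eq_or_lt with h | h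
      · exact h
      · exfalso
        have h3 := hx.zero α le_rfl
        rw [bx α h] at h3
        exact absurd h3 (hx'.pos α (lt_trans h hgα')).ne'
    have hyg : y g ≤ ν := hαg' ▸ hνα
    have hF' : g ∈ low x' y' α' ν := ⟨hgα', Or.inr (gy.trans hyg)⟩
    obtain ⟨ξ, h3, h4, -, -⟩ := h2 g hF'
    rw [← hrk] at h4
    have h5 : ξ < g := hαg' ▸ h3.1
    exact absurd h4 (rk_lt h5 h3).ne

/-- triples of countable ordinals -/
abbrev Trip : Type 1 :=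
  (Iio (ω_ 1 : Ordinal.{0}) × Iio (ω_ 1 : Ordinal.{0})) × Iio (ω_ 1 : Ordinal.{0})

/-- `t` is the type of the pair `(x, y)` with bound `ν`. -/
def IsType (e : Ordinal.{0} → Ordinal.{0} → Ordinal.{0}) (x y : Ordinal.{0} → Ordinal.{0})
    (ν : Ordinal.{0}) (t : Set Trip) : Prop :=
  ∃ α β, Node e α x ∧ Node e β y ∧ α ≤ β ∧ (∀ ξ < α, x ξ ≠ y ξ → x ξ ≤ ν ∧ y ξ ≤ ν) ∧ y α ≤ ν ∧
    ν < ω_ 1 ∧ t = {p | ∃ ξ ∈ low x y α ν, rk (low x y α ν) ξ = p.1.1.1 ∧ x ξ = p.1.2.1 ∧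
      y ξ = p.2.1}

theorem low_countable (E : Good e) {x y : Ordinal.{0} → Ordinal.{0}} {α β ν : Ordinal.{0}}
    (hx : Node e α x) (hy : Node e β y) (hαβ : α ≤ β) (hν : ν < ω_ 1) :
    (low x y α ν).Countable := by
  refine Countable.mono ?_ ((hx.ctbl E hν).union (hy.ctbl E hν))
  rintro ξ ⟨h1, h2 | h2⟩
  · left; exact ⟨h1, h2⟩
  · right; exact ⟨lt_of_lt_of_le h1 hαβ, h2⟩

theorem exists_isType (E : Good e) {x y : Ordinal.{0} → Ordinal.{0}} {α β : Ordinal.{0}}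
    (hx : Node e α x) (hy : Node e β y) (hαβ : α ≤ β) :
    ∃ ν, ν < ω_ 1 ∧ ∃ t : Set Trip, #t ≤ ℵ₀ ∧ IsType e x y ν t := by
  have hD := hx.diff E hy hαβ
  obtain ⟨ν, hν, h⟩ := exists_bound_one
    (s := insert (y α) (x '' {ζ | ζ < α ∧ x ζ ≠ y ζ} ∪ y '' {ζ | ζ < α ∧ x ζ ≠ y ζ}))
    (((hD.image x).union (hD.image y)).insert _) (by
      rintro a (rfl | ⟨ζ, _, rfl⟩ | ⟨ζ, _, rfl⟩)
      · exact hy.lt _
      · exact hx.lt _
      · exact hy.lt _)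
  refine ⟨ν, hν, _, ?_, α, β, hx, hy, hαβ, ?_, ?_, hν, rfl⟩
  · rw [Cardinal.le_aleph0_iff_set_countable]
    refine Set.MapsTo.countable_of_injOn (f := fun p : Trip => ((p.1.1.1, p.1.2.1), p.2.1))
      (t := (fun ξ => ((rk (low x y α ν) ξ, x ξ), y ξ)) '' low x y α ν) ?_ ?_
      ((low_countable E hx hy hαβ hν).image _)
    · rintro p ⟨ξ, h1, h2, h3, h4⟩
      exact ⟨ξ, h1, by simp only [h2, h3, h4]⟩
    · rintro ⟨⟨a, b⟩, c⟩ _ ⟨⟨a', b'⟩, c'⟩ _ h5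
      simp only [Prod.mk.injEq] at h5
      rw [Prod.mk.injEq, Prod.mk.injEq]
      exact ⟨⟨Subtype.ext h5.1.1, Subtype.ext h5.1.2⟩, Subtype.ext h5.2⟩
  · intro ξ hξ hne
    exact ⟨h _ (Or.inr (Or.inl ⟨ξ, ⟨hξ, hne⟩, rfl⟩)), h _ (Or.inr (Or.inr ⟨ξ, ⟨hξ, hne⟩, rfl⟩))⟩
  · exact h _ (Or.inl rfl)

theorem IsType.no_cross (E : Good e) {x y x' y' : Ordinal.{0} → Ordinal.{0}} {ν : Ordinal.{0}}
    {t : Set Trip} (h : IsType e x y ν t) (h' : IsType e x' y' ν t) :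
    ¬ (LexLt x x' ∧ LexLt y' y) := by
  obtain ⟨α, β, hx, hy, hαβ, h1, h2, hν, h3⟩ := h
  obtain ⟨α', β', hx', hy', hαβ', h1', h2', hν', h3'⟩ := h'
  refine H68.CL.no_cross hx hx' h1 h2 h1' ?_ ?_
  · intro ξ hξ
    have hm : ((⟨⟨rk (low x y α ν) ξ, rk_lt_one (low_countable E hx hy hαβ hν) ξ⟩,
        ⟨x ξ, hx.lt ξ⟩⟩, ⟨y ξ, hy.lt ξ⟩) : Trip) ∈ t := by
      rw [h3]
      exact ⟨ξ, hξ, rfl, rfl, rfl⟩
    rw [h3'] at hm
    obtain ⟨ξ', hξ', a, b, c⟩ := hm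
    exact ⟨ξ', hξ', a, b, c⟩
  · intro ξ hξ
    have hm : ((⟨⟨rk (low x' y' α' ν) ξ, rk_lt_one (low_countable E hx' hy' hαβ' hν) ξ⟩,
        ⟨x' ξ, hx'.lt ξ⟩⟩, ⟨y' ξ, hy'.lt ξ⟩) : Trip) ∈ t := by
      rw [h3']
      exact ⟨ξ, hξ, rfl, rfl, rfl⟩
    rw [h3] at hm
    obtain ⟨ξ', hξ', a, b, c⟩ := hm
    exact ⟨ξ', hξ', a, b, c⟩

/-- The square of the set of nodes is the union of `ℵ₁` many chains. -/
theorem countryman (hCH : (2 : Cardinal.{0}) ^ ℵ₀ = ℵ₁) (E : Good e) :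
    ∃ (K : Type 1) (R : (Ordinal.{0} → Ordinal.{0}) → (Ordinal.{0} → Ordinal.{0}) → K → Prop),
      #K ≤ ℵ₁ ∧
      (∀ x y α β, Node e α x → Node e β y → ∃ k, R x y k) ∧
      (∀ x y x' y' k, R x y k → R x' y' k → ¬ (LexLt x x' ∧ LexLt y' y)) := by
  refine ⟨(Iio (ω_ 1 : Ordinal.{0}) × Iio (ω_ 1 : Ordinal.{0})) × {t : Set Trip // #t ≤ ℵ₀},
    fun x y k => (k.1.1.1 = 0 ∧ IsType e x y k.1.2.1 k.2.1) ∨
      (k.1.1.1 = 1 ∧ IsType e y x k.1.2.1 k.2.1), ?_, ?_, ?_⟩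
  · refine mk_prod_le_aleph_one (mk_prod_le_aleph_one mk_Iio_one_le mk_Iio_one_le) ?_
    exact mk_countable_subsets hCH (mk_prod_le_aleph_one
      (mk_prod_le_aleph_one mk_Iio_one_le mk_Iio_one_le) mk_Iio_one_le)
  · intro x y α β hx hy
    rcases le_total α β with h | h
    · obtain ⟨ν, hν, t, ht, hT⟩ := exists_isType E hx hy h
      exact ⟨⟨⟨⟨0, omega_pos 1⟩, ⟨ν, hν⟩⟩, ⟨t, ht⟩⟩, Or.inl ⟨rfl, hT⟩⟩
    · obtain ⟨ν, hν, t, ht, hT⟩ := exists_isType E hy hx h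
      exact ⟨⟨⟨⟨1, lt_trans one_lt_omega0 omega0_lt_omega_one⟩, ⟨ν, hν⟩⟩, ⟨t, ht⟩⟩,
        Or.inr ⟨rfl, hT⟩⟩
  · rintro x y x' y' k (⟨h0, h⟩ | ⟨h0, h⟩) (⟨h0', h'⟩ | ⟨h0', h'⟩)
    · exact h.no_cross E h'
    · rw [h0] at h0'; exact absurd h0' zero_ne_one
    · rw [h0] at h0'; exact absurd h0' one_ne_zero
    · intro hc
      exact h'.no_cross E h ⟨hc.2, hc.1⟩

end H68.CL
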