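import Pool.Agent.H68.CL.Node

open Set Cardinal Ordinal Order
open scoped Ordinal Cardinal

namespace H68.CL

theorem no_branch (B : Ordinal.{0} → Ordinal.{0}) (h1 : ∀ ζ < ω_ 2, B ζ < ω_ 1)
    (h2 : ∀ γ < ω_ 2, ∀ ν < ω_ 1, {ζ | ζ < γ ∧ B ζ ≤ ν}.Countable) : False := by
  have h3 : ∀ ν : Iio (ω_ 1 : Ordinal.{0}), ∃ γ < (ω_ 2 : Ordinal.{0}),
      ∀ ζ < (ω_ 2 : Ordinal.{0}), B ζ ≤ ν.1 → ζ ≤ γ := by
    intro ν
    by_contra hn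
    push Not at hn
    choose! G hG using hn
    obtain ⟨δ, hδ, -, hc, hs, hb⟩ := exists_closed G (fun ζ h => (hG ζ h).1) two_pos
    obtain ⟨μ, hμ, h⟩ := hb _ (h2 δ hδ ν.1 ν.2) (fun a ha => ha.1)
    have h4 := hG μ (lt_trans hμ hδ)
    exact absurd (h (G μ) ⟨hc μ hμ, h4.2.1⟩) (not_le.2 h4.2.2)
  choose γ hγ hγ2 using h3
  obtain ⟨Γ, hΓ, h⟩ := exists_bound_two mk_Iio_one_le γ hγ
  have h4 : Γ + 1 < ω_ 2 := succ_lt_two hΓ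
  have h5 := hγ2 ⟨B (Γ + 1), h1 _ h4⟩ (Γ + 1) h4 le_rfl
  have h6 := h5.trans (h _)
  exact absurd h6 (not_le.2 (Order.lt_add_one_iff.2 le_rfl))

/-- A strictly increasing map from the line of nodes into the set of all `e β`. -/
structure Emb (e : Ordinal.{0} → Ordinal.{0} → Ordinal.{0})
    (b : (Ordinal.{0} → Ordinal.{0}) → Ordinal.{0}) : Prop where
  lt : ∀ α x, Node e α x → b x < ω_ 2
  mono : ∀ α β x y, Node e α x → Node e β y → LexLt x y → LexLt (e (b x)) (e (b y))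

variable {e : Ordinal.{0} → Ordinal.{0} → Ordinal.{0}}
  {b : (Ordinal.{0} → Ordinal.{0}) → Ordinal.{0}}

/-- Two nodes of length at least `τ` which agree below `τ`. -/
structure Agree (e : Ordinal.{0} → Ordinal.{0} → Ordinal.{0}) (τ : Ordinal.{0})
    (z z' : Ordinal.{0} → Ordinal.{0}) : Prop where
  left : ∃ ζ, τ ≤ ζ ∧ Node e ζ z
  right : ∃ ζ, τ ≤ ζ ∧ Node e ζ z'
  eq : ∀ ξ < τ, z ξ = z' ξ

theorem Agree.symm {τ : Ordinal.{0}} {z z' : Ordinal.{0} → Ordinal.{0}} (h : Agree e τ z z') :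
    Agree e τ z' z := ⟨h.right, h.left, fun ξ hξ => (h.eq ξ hξ).symm⟩

theorem exists_bound_node (E : Good e) (M : Emb e b) (w : Ordinal.{0} → Ordinal.{0}) :
    ∃ γ < (ω_ 2 : Ordinal.{0}), ∀ τ z z', γ ≤ τ → Agree e τ z z' → LexLt (e (b z)) w →
      LexLt (e (b z')) w := by
  by_contra hn
  push Not at hn
  choose! τ z z' h1 h2 h3 h4 using hn
  have key : ∀ γ < (ω_ 2 : Ordinal.{0}), ∀ γ' < (ω_ 2 : Ordinal.{0}), ∀ ζ, ζ < γ → ζ < γ' →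
      (∀ ξ < ζ, z γ ξ = z γ' ξ) → ¬ (z γ ζ < z γ' ζ) := by
    intro γ hγ γ' hγ' ζ hζ hζ' hag hlt
    obtain ⟨ζ₁, -, n1⟩ := (h2 γ hγ).right
    obtain ⟨ζ₂, -, n2⟩ := (h2 γ' hγ').left
    have h5 : LexLt (z' γ) (z γ') := by
      refine ⟨ζ, fun ξ hξ => ?_, ?_⟩
      · rw [← (h2 γ hγ).eq ξ (lt_of_lt_of_le (lt_trans hξ hζ) (h1 γ hγ))]
        exact hag ξ hξ
      · rw [← (h2 γ hγ).eq ζ (lt_of_lt_of_le hζ (h1 γ hγ))]
        exact hlt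
    exact h4 γ hγ ((M.mono _ _ _ _ n1 n2 h5).trans (h3 γ' hγ'))
  have key2 : ∀ γ < (ω_ 2 : Ordinal.{0}), ∀ γ' < (ω_ 2 : Ordinal.{0}), ∀ ζ, ζ < γ → ζ < γ' →
      z γ ζ = z γ' ζ := by
    intro γ hγ γ' hγ' ζ
    induction ζ using WellFoundedLT.induction with
    | _ ζ ih =>
      intro hζ hζ'
      have h5 : ∀ ξ < ζ, z γ ξ = z γ' ξ := fun ξ hξ => ih ξ hξ (lt_trans hξ hζ) (lt_trans hξ hζ')
      have h6 := key γ hγ γ' hγ' ζ hζ hζ' h5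
      have h7 := key γ' hγ' γ hγ ζ hζ' hζ (fun ξ hξ => (h5 ξ hξ).symm)
      exact le_antisymm (not_lt.1 h7) (not_lt.1 h6)
  refine no_branch (fun ζ => z (ζ + 1) ζ) ?_ ?_
  · intro ζ hζ
    obtain ⟨ζ₁, -, n1⟩ := (h2 (ζ + 1) (succ_lt_two hζ)).left
    exact n1.lt ζ
  · intro γ hγ ν hν
    obtain ⟨ζ₁, hζ₁, n1⟩ := (h2 γ hγ).left
    refine Countable.mono ?_ (n1.ctbl E hν)
    rintro ζ ⟨h5, h6⟩
    refine ⟨lt_of_lt_of_le h5 ((h1 γ hγ).trans hζ₁), ?_⟩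
    have h7 := key2 (ζ + 1) (succ_lt_two (lt_trans h5 hγ)) γ hγ ζ (Order.lt_add_one_iff.2 le_rfl) h5
    rw [← h7]
    exact h6

/-- The levels at which the embedding respects restrictions. -/
structure InE (e : Ordinal.{0} → Ordinal.{0} → Ordinal.{0})
    (b : (Ordinal.{0} → Ordinal.{0}) → Ordinal.{0}) (δ : Ordinal.{0}) : Prop where
  lt2 : δ < ω_ 2
  pos : 0 < δ
  lim : ∀ ζ < δ, ζ + 1 < δ
  le : ∀ z z', Agree e δ z z' → δ ≤ b z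
  eq : ∀ z z', Agree e δ z z' → ∀ ξ < δ, e (b z) ξ = e (b z') ξ

theorem InE.unbounded (hCH : (2 : Cardinal.{0}) ^ ℵ₀ = ℵ₁) (E : Good e) (M : Emb e b)
    {β₀ : Ordinal.{0}} (hβ₀ : β₀ < ω_ 2) : ∃ δ, β₀ < δ ∧ InE e b δ := by
  choose γ hγ hγ2 using exists_bound_node E M
  have h1 : ∀ α : Ordinal.{0}, ∃ Γ : Ordinal.{0}, α < ω_ 2 →
      (Γ < ω_ 2 ∧ ∀ w, Node e α w → γ w ≤ Γ) := by
    intro α
    by_cases hα : α < ω_ 2
    · obtain ⟨Γ, hΓ, h⟩ := exists_bound_two (mk_level_le (e := e) hCH hα) (fun w => γ w.1)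
        (fun w => hγ w.1)
      exact ⟨Γ, fun _ => ⟨hΓ, fun w hw => h ⟨w, hw⟩⟩⟩
    · exact ⟨0, fun h => absurd h hα⟩
  choose Γ hΓ using h1
  obtain ⟨δ, hδ, hb, hc, hs, -⟩ := exists_closed Γ (fun ζ h => (hΓ ζ h).1) hβ₀
  have h0 : 0 < δ := lt_of_le_of_lt zero_le hb
  have key : ∀ z z', Agree e δ z z' → ∀ ξ < δ, (∀ i < ξ, e (b z) i = e (b z') i) →
      ¬ (e (b z) ξ < e (b z') ξ) := by
    intro z z' hz ξ hξ hag hlt
    obtain ⟨ζ', -, nz'⟩ := hz.right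
    have h1 : ξ < b z' := by
      by_contra h
      rw [E.zero _ _ (not_lt.1 h)] at hlt
      exact absurd hlt not_lt_zero
    have hw : Node e (ξ + 1) (res (e (b z')) (ξ + 1)) :=
      (node_e E (M.lt _ _ nz')).res E (Order.add_one_le_iff.2 h1)
    have h2 : γ (res (e (b z')) (ξ + 1)) ≤ δ :=
      ((hΓ (ξ + 1) hw.lt2).2 _ hw).trans (hc _ (hs ξ hξ)).le
    have h3 : LexLt (e (b z)) (res (e (b z')) (ξ + 1)) := by
      refine ⟨ξ, fun i hi => ?_, ?_⟩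
      · rw [res_of_lt (lt_trans hi (Order.lt_add_one_iff.2 le_rfl))]; exact hag i hi
      · rw [res_of_lt (Order.lt_add_one_iff.2 le_rfl)]; exact hlt
    obtain ⟨i, -, hi⟩ := hγ2 _ δ z z' h2 hz h3
    rcases lt_or_ge i (ξ + 1) with h4 | h4
    · rw [res_of_lt h4] at hi; exact lt_irrefl _ hi
    · rw [res_of_le h4] at hi; exact absurd hi not_lt_zero
  have key2 : ∀ z z', Agree e δ z z' → ∀ ξ < δ, e (b z) ξ = e (b z') ξ := by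
    intro z z' hz ξ
    induction ξ using WellFoundedLT.induction with
    | _ ξ ih =>
      intro hξ
      have h5 : ∀ i < ξ, e (b z) i = e (b z') i := fun i hi => ih i hi (lt_trans hi hξ)
      have h6 := key z z' hz ξ hξ h5
      have h7 := key z' z hz.symm ξ hξ (fun i hi => (h5 i hi).symm)
      exact le_antisymm (not_lt.1 h7) (not_lt.1 h6)
  refine ⟨δ, hb, hδ, h0, hs, ?_, key2⟩
  intro z z' hz
  by_contra hlt
  rw [not_le] at hlt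
  obtain ⟨ζ, hζ, nz⟩ := hz.left
  have n0 : Node e δ (res z δ) := nz.res E hζ
  obtain ⟨z₁, n1, hz₁⟩ := n0.ext E (Order.lt_add_one_iff.2 le_rfl : δ < δ + 1).le (succ_lt_two hδ)
  have a0 : Agree e δ (res z δ) z := ⟨⟨δ, le_rfl, n0⟩, ⟨ζ, hζ, nz⟩, fun ξ hξ => res_of_lt hξ⟩
  have a1 : Agree e δ (res z δ) z₁ := ⟨⟨δ, le_rfl, n0⟩,
    ⟨δ + 1, (Order.lt_add_one_iff.2 le_rfl : δ < δ + 1).le, n1⟩, fun ξ hξ => (hz₁ ξ hξ).symm⟩
  have b0 : ∀ u, Agree e δ (res z δ) u → b u ≤ b z := by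
    intro u hu
    by_contra h
    rw [not_le] at h
    obtain ⟨ζu, hζu, nu⟩ := hu.right
    have h8 := E.pos (b u) (M.lt _ _ nu) (b z) h
    rw [← key2 _ _ hu _ hlt, key2 _ _ a0 _ hlt, E.zero _ _ le_rfl] at h8
    exact lt_irrefl _ h8
  have c0 : b (res z δ) ≤ b z := b0 _ ⟨⟨δ, le_rfl, n0⟩, ⟨δ, le_rfl, n0⟩, fun _ _ => rfl⟩
  have c1 : b z₁ ≤ b z := b0 _ a1
  have heq : e (b (res z δ)) = e (b z₁) := by
    funext ξ
    rcases lt_or_ge ξ δ with h | h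
    · exact key2 _ _ a1 ξ h
    · rw [E.zero _ _ ((c0.trans hlt.le).trans h), E.zero _ _ ((c1.trans hlt.le).trans h)]
  have hlex : LexLt (res z δ) z₁ := by
    refine ⟨δ, fun ξ hξ => (hz₁ ξ hξ).symm, ?_⟩
    rw [res_of_le le_rfl]
    exact n1.pos δ (Order.lt_add_one_iff.2 le_rfl)
  have := M.mono _ _ _ _ n0 n1 hlex
  rw [heq] at this
  exact LexLt.irrefl _ this

theorem InE.sup {δ : Ordinal.{0}} (hδ : δ < ω_ 2) (α : ℕ → Ordinal.{0}) (hα : ∀ n, InE e b (α n))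
    (h1 : ∀ n, α n ≤ δ) (h2 : ∀ ζ < δ, ∃ n, ζ < α n) : InE e b δ where
  lt2 := hδ
  pos := lt_of_lt_of_le (hα 0).pos (h1 0)
  lim := fun ζ hζ => by
    obtain ⟨n, hn⟩ := h2 ζ hζ
    exact lt_of_lt_of_le ((hα n).lim ζ hn) (h1 n)
  le := fun z z' h => by
    by_contra hn
    rw [not_le] at hn
    obtain ⟨n, hn⟩ := h2 _ hn
    obtain ⟨ζ, hζ, nz⟩ := h.left
    obtain ⟨ζ', hζ', nz'⟩ := h.right
    exact absurd ((hα n).le z z' ⟨⟨ζ, (h1 n).trans hζ, nz⟩, ⟨ζ', (h1 n).trans hζ', nz'⟩,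
      fun ξ hξ => h.eq ξ (lt_of_lt_of_le hξ (h1 n))⟩) (not_le.2 hn)
  eq := fun z z' h ξ hξ => by
    obtain ⟨n, hn⟩ := h2 ξ hξ
    obtain ⟨ζ, hζ, nz⟩ := h.left
    obtain ⟨ζ', hζ', nz'⟩ := h.right
    exact (hα n).eq z z' ⟨⟨ζ, (h1 n).trans hζ, nz⟩, ⟨ζ', (h1 n).trans hζ', nz'⟩,
      fun ξ hξ => h.eq ξ (lt_of_lt_of_le hξ (h1 n))⟩ ξ hn

end H68.CL
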