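import Pool.Agent.H68.CL.Prune

open Set Cardinal Ordinal Order
open scoped Ordinal Cardinal

namespace H68.CL

variable {e : Ordinal.{0} → Ordinal.{0} → Ordinal.{0}}
  {b : (Ordinal.{0} → Ordinal.{0}) → Ordinal.{0}}

/-- states of the construction -/
structure St (e : Ordinal.{0} → Ordinal.{0} → Ordinal.{0})
    (b : (Ordinal.{0} → Ordinal.{0}) → Ordinal.{0}) : Type 1 where
  V : Fam
  α₀ : Ordinal.{0}
  α : Ordinal.{0}
  t : Ordinal.{0} → Ordinal.{0}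
  pruned : Pruned e b V α₀
  mem : V α t
  big : Long (Avoid e b V α t) α t

theorem avoid_down {V : Fam} {α₀ α : Ordinal.{0}} {t : Ordinal.{0} → Ordinal.{0}}
    (P : Pruned e b V α₀) (h : V α t) : Down e b (Avoid e b V α t) α where
  node := fun β s hs => P.node β s hs.1
  inE := fun β s hs => P.inE β s hs.1
  le := fun β s hs => hs.2.1
  rst := fun β s hs γ h1 h2 h3 => by
    have h4 : V γ (res s γ) := P.rst β s hs.1 γ h1 ((P.le _ _ h).trans h2) h3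
    refine ⟨h4, h2, fun ξ hξ => ?_, fun m hm1 hm2 => ?_⟩
    · rw [res_of_lt (lt_of_lt_of_le hξ h2)]; exact hs.2.2.1 ξ hξ
    · have h5 : e (b (res s γ)) m = e (b s) m :=
        h1.eq _ _ ((P.node _ _ h4).agree (P.node _ _ hs.1) le_rfl h3
          (fun ξ hξ => res_of_lt hξ)) m hm2
      rw [h5]
      exact hs.2.2.2 m hm1 (lt_of_lt_of_le hm2 h3)

theorem step (hCH : (2 : Cardinal.{0}) ^ ℵ₀ = ℵ₁) (E : Good e) (M : Emb e b) (S : St e b) :
    ∃ S' : St e b, S.α < S'.α ∧ (∀ ξ < S.α, S'.t ξ = S.t ξ) ∧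
      (∀ β s, S'.V β s → Avoid e b S.V S.α S.t β s) ∧
      ∃ m, S.α ≤ m ∧ m < S'.α ∧ e (b S'.t) m ≤ jmin e b S'.V S'.α S'.t := by
  have D := avoid_down S.pruned S.mem
  have P : Pruned e b (prune (Avoid e b S.V S.α S.t)) S.α :=
    { D.prune_down with long := fun α t h => D.prune_long hCH E M h }
  have ht : prune (Avoid e b S.V S.α S.t) S.α S.t :=
    ⟨⟨S.mem, le_rfl, fun _ _ => rfl, fun m h1 h2 => absurd h1 (not_le.2 h2)⟩, S.big⟩
  obtain ⟨α', s, h1, h2, h3, m, h4, h5, h6⟩ := P.jmin_mem ht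
  obtain ⟨α₁, t₁, k1, k2, k3, k4⟩ := P.exists_avoid hCH E M h1
  refine ⟨⟨_, _, α₁, t₁, P, k1, k4⟩, ?_, ?_, ?_, m, h4, ?_, ?_⟩
  · exact lt_of_lt_of_le (lt_of_le_of_lt h4 h5) k2
  · intro ξ hξ
    show t₁ ξ = S.t ξ
    rw [k3 ξ (lt_of_lt_of_le hξ h2), h3 ξ hξ]
  · intro β s hs
    exact hs.1
  · exact lt_of_lt_of_le h5 k2
  · show e (b t₁) m ≤ jmin e b _ α₁ t₁
    have h7 : e (b t₁) m = e (b s) m :=
      (P.inE _ _ h1).eq _ _ ((P.node _ _ k1).agree (P.node _ _ h1) k2 le_rfl k3) m h5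
    rw [h7, h6]
    obtain ⟨α'', s'', l1, l2, l3, m'', l4, l5, l6⟩ := P.jmin_mem k1
    rw [← l6]
    have h8 : S.α ≤ α₁ := h2.trans k2
    refine jmin_le l1 (h8.trans l2) (fun ξ hξ => ?_) (h8.trans l4) l5
    rw [l3 ξ (lt_of_lt_of_le hξ h8), k3 ξ (lt_of_lt_of_le hξ h2), h3 ξ hξ]

theorem exists_St (hCH : (2 : Cardinal.{0}) ^ ℵ₀ = ℵ₁) (E : Good e) (M : Emb e b) :
    Nonempty (St e b) := by
  have D : Down e b (fun α s => Node e α s ∧ InE e b α) 0 :=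
    { node := fun _ _ h => h.1
      inE := fun _ _ h => h.2
      le := fun _ _ _ => zero_le
      rst := fun α s h γ h1 _ h3 => ⟨h.1.res E h3, h1⟩ }
  have P : Pruned e b (fun α s => Node e α s ∧ InE e b α) 0 :=
    { D with
      long := fun α t h γ hγ => by
        obtain ⟨ε, hε, hεE⟩ := InE.unbounded hCH E M (max_lt h.2.lt2 hγ)
        obtain ⟨y, hy, hy2⟩ := h.1.ext E ((le_max_left _ _).trans hε.le) hεE.lt2
        exact ⟨ε, y, ⟨hy, hεE⟩, (le_max_left _ _).trans hε.le, (le_max_right _ _).trans hε.le,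
          hy2⟩ }
  obtain ⟨δ, -, hδ⟩ := InE.unbounded hCH E M two_pos
  obtain ⟨α₁, t₁, k1, -, -, k4⟩ := P.exists_avoid hCH E M (t := e δ) ⟨node_e E hδ.lt2, hδ⟩
  exact ⟨⟨_, _, α₁, t₁, P, k1, k4⟩⟩

theorem no_emb (hCH : (2 : Cardinal.{0}) ^ ℵ₀ = ℵ₁) (E : Good e) (M : Emb e b) : False := by
  classical
  obtain ⟨S₀⟩ := exists_St hCH E M
  choose nxt hn1 hn2 hn3 hn4 using step hCH E M
  let S : ℕ → St e b := fun n => Nat.rec S₀ (fun _ s => nxt s) n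
  have hS : ∀ n, S (n + 1) = nxt (S n) := fun n => rfl
  -- monotonicity
  have hα1 : ∀ n, (S n).α < (S (n + 1)).α := fun n => by rw [hS]; exact hn1 _
  have hαm : StrictMono fun n => (S n).α := strictMono_nat_of_lt_succ hα1
  have hα2 : ∀ n, (S n).α < ω_ 2 := fun n => ((S n).pruned.inE _ _ (S n).mem).lt2
  have hag1 : ∀ n, ∀ ξ < (S n).α, (S (n + 1)).t ξ = (S n).t ξ := fun n => by
    rw [hS]; exact hn2 _
  have hag : ∀ n k, ∀ ξ < (S n).α, (S (n + k)).t ξ = (S n).t ξ := by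
    intro n k
    induction k with
    | zero => intro ξ _; rfl
    | succ k ih =>
      intro ξ hξ
      have h1 : (S n).α ≤ (S (n + k)).α := hαm.monotone (Nat.le_add_right n k)
      rw [← add_assoc, hag1 (n + k) ξ (lt_of_lt_of_le hξ h1), ih ξ hξ]
  have hag' : ∀ n l, n ≤ l → ∀ ξ < (S n).α, (S l).t ξ = (S n).t ξ := by
    intro n l hl ξ hξ
    obtain ⟨k, rfl⟩ := Nat.exists_eq_add_of_le hl
    exact hag n k ξ hξ
  have hV1 : ∀ n β s, (S (n + 1)).V β s → Avoid e b (S n).V (S n).α (S n).t β s := fun n => by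
    rw [hS]; exact hn3 _
  have hV : ∀ n k β s, (S (n + k)).V β s → (S n).V β s := by
    intro n k
    induction k with
    | zero => intro β s h; exact h
    | succ k ih => intro β s h; exact ih β s (hV1 (n + k) β s h).1
  -- the supremum
  obtain ⟨Γ, hΓ, hΓ2⟩ := exists_bound_two_countable (s := range fun n => (S n).α)
    (countable_range _) (by rintro _ ⟨n, rfl⟩; exact hα2 n)
  set δ : Ordinal.{0} := ⨆ n, (S n).α with hδdef
  have hδ : δ < ω_ 2 := lt_of_le_of_lt (Ordinal.iSup_le fun n => hΓ2 _ ⟨n, rfl⟩) hΓ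
  have hle : ∀ n, (S n).α ≤ δ := fun n => Ordinal.le_iSup (fun n => (S n).α) n
  have hcof : ∀ ζ < δ, ∃ n, ζ < (S n).α := fun ζ hζ => Ordinal.lt_iSup_iff.1 hζ
  have hltδ : ∀ n, (S n).α < δ := fun n => lt_of_lt_of_le (hα1 n) (hle (n + 1))
  -- the union
  obtain ⟨x, hx0, hx⟩ : ∃ x : Ordinal.{0} → Ordinal.{0}, (∀ ζ, δ ≤ ζ → x ζ = 0) ∧
      ∀ n, ∀ ζ < (S n).α, x ζ = (S n).t ζ := by
    refine ⟨fun ζ => if h : ∃ n, ζ < (S n).α then (S (Nat.find h)).t ζ else 0, ?_, ?_⟩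
    · intro ζ hζ
      dsimp only
      rw [dif_neg]
      rintro ⟨n, hn⟩
      exact absurd (lt_of_lt_of_le hn (hle n)) (not_lt.2 hζ)
    · intro n ζ hζ
      have h : ∃ n, ζ < (S n).α := ⟨n, hζ⟩
      dsimp only
      rw [dif_pos h]
      exact (hag' (Nat.find h) n (Nat.find_le hζ) ζ (Nat.find_spec h)).symm
  have hnode : ∀ n, Node e (S n).α (S n).t := fun n => (S n).pruned.node _ _ (S n).mem
  have hxn : Node e δ x := by
    refine Node.limit E hδ hx0 (fun n => (S n).α) hle hcof ?_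
    intro n
    have : res x (S n).α = (S n).t := by
      funext ζ
      rcases lt_or_ge ζ (S n).α with h | h
      · rw [res_of_lt h, hx n ζ h]
      · rw [res_of_le h, (hnode n).zero ζ h]
    show Node e (S n).α (res x (S n).α)
    rw [this]
    exact hnode n
  have hδE : InE e b δ := InE.sup hδ (fun n => (S n).α)
    (fun n => (S n).pruned.inE _ _ (S n).mem) hle hcof
  have hδb : δ ≤ b x := hδE.le x x (hxn.agree hxn le_rfl le_rfl fun _ _ => rfl)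
  have hbx : b x < ω_ 2 := M.lt _ _ hxn
  have hy : ∀ n, ∀ ζ < (S n).α, e (b x) ζ = e (b (S n).t) ζ := by
    intro n ζ hζ
    exact ((S n).pruned.inE _ _ (S n).mem).eq _ _ (hxn.agree (hnode n) (hle n) le_rfl
      (fun ξ hξ => hx n ξ hξ)) ζ hζ
  -- values beyond level `n`
  have F1 : ∀ n m, (S n).α ≤ m → m < δ →
      jmin e b (S n).V (S n).α (S n).t < e (b x) m := by
    intro n m hm1 hm2
    obtain ⟨l, hl⟩ := hcof m hm2
    have hnl : n < l := hαm.lt_iff_lt.1 (lt_of_le_of_lt hm1 hl)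
    obtain ⟨k, rfl⟩ := Nat.exists_eq_add_of_lt hnl
    have h1 : (S (n + 1)).V (S (n + k + 1)).α (S (n + k + 1)).t := by
      have := (S (n + k + 1)).mem
      apply hV (n + 1) k
      have h2 : n + 1 + k = n + k + 1 := by ring
      rw [h2]
      exact this
    have h2 := hV1 n _ _ h1
    rw [hy (n + k + 1) m hl]
    refine lt_of_le_of_ne ?_ (h2.2.2.2 m hm1 hl).symm
    exact jmin_le h2.1 h2.2.1 h2.2.2.1 hm1 hl
  have F2 : ∀ n, ∃ m, (S n).α ≤ m ∧ m < (S (n + 1)).α ∧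
      e (b x) m ≤ jmin e b (S (n + 1)).V (S (n + 1)).α (S (n + 1)).t := by
    intro n
    obtain ⟨m, h1, h2, h3⟩ := hn4 (S n)
    rw [← hS] at h2 h3
    refine ⟨m, h1, h2, ?_⟩
    rw [hy (n + 1) m h2]
    exact h3
  obtain ⟨η, hη, hη2⟩ := E.re (b x) hbx δ hδb hδE.pos hδE.lim
  obtain ⟨n, hn⟩ := hcof η hη
  obtain ⟨ζ₁, k1, k2, k3⟩ := F2 n
  obtain ⟨g, g1, g2, g3, g4⟩ := hη2 _ ζ₁ (lt_of_lt_of_le hn k1) (lt_trans k2 (hltδ (n + 1))) k3
    ⟨(S (n + 1)).α, hltδ (n + 1), fun ζ h1 h2 => F1 (n + 1) ζ h1.le h2⟩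
  have hg : g < (S (n + 1)).α := by
    by_contra h
    exact absurd g3 (F1 (n + 1) g (not_lt.1 h) g2).ne'
  obtain ⟨α', s, l1, l2, l3, m, l4, l5, l6⟩ := (S (n + 1)).pruned.jmin_mem (S (n + 1)).mem
  -- the least position
  have hne : {m | (S (n + 1)).α ≤ m ∧ m < α' ∧
      e (b s) m = jmin e b (S (n + 1)).V (S (n + 1)).α (S (n + 1)).t}.Nonempty :=
    ⟨m, l4, l5, l6⟩
  obtain ⟨m', ⟨m1, m2, m3⟩, m4⟩ : ∃ m', ((S (n + 1)).α ≤ m' ∧ m' < α' ∧
      e (b s) m' = jmin e b (S (n + 1)).V (S (n + 1)).α (S (n + 1)).t) ∧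
      ∀ i, (S (n + 1)).α ≤ i → i < m' →
        e (b s) i ≠ jmin e b (S (n + 1)).V (S (n + 1)).α (S (n + 1)).t := by
    refine ⟨_, csInf_mem hne, ?_⟩
    intro i hi1 hi2 hi3
    have h5 : i < α' := lt_trans hi2 (csInf_mem hne).2.1
    have h6 : i ∈ {m | (S (n + 1)).α ≤ m ∧ m < α' ∧
      e (b s) m = jmin e b (S (n + 1)).V (S (n + 1)).α (S (n + 1)).t} := ⟨hi1, h5, hi3⟩
    exact absurd (csInf_le' h6) (not_le.2 hi2)
  have hsnode : Node e α' s := (S (n + 1)).pruned.node _ _ l1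
  have hαb : α' ≤ b s := (S (n + 1)).pruned.le_b l1
  have hys : ∀ ζ < (S (n + 1)).α, e (b s) ζ = e (b x) ζ := by
    intro ζ hζ
    rw [hy (n + 1) ζ hζ]
    exact ((S (n + 1)).pruned.inE _ _ (S (n + 1)).mem).eq _ _
      (hsnode.agree (hnode (n + 1)) l2 le_rfl l3) ζ hζ
  obtain ⟨ζ, z1, z2, z3⟩ := E.nr (b s) (M.lt _ _ hsnode) g m' (lt_of_lt_of_le hg m1)
    (lt_of_lt_of_le m2 hαb) (by rw [hys g hg, g3, m3])
  rw [m3] at z3
  rcases lt_or_ge ζ (S (n + 1)).α with h | h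
  · rw [hys ζ h] at z3
    exact absurd z3 (not_le.2 (g4 ζ z1 (lt_trans h (hltδ (n + 1)))))
  · have h5 := jmin_le (e := e) (b := b) l1 l2 l3 h (lt_trans z2 m2)
    exact m4 ζ h z2 (le_antisymm z3 h5)

end H68.CL
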