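import Pool.Agent.H68.CL.Walk

open Set Cardinal Ordinal Order
open scoped Ordinal Cardinal

namespace H68.CL

/-- Nodes of length `α`: functions `α → ω₁ ∖ {0}` (extended by zero) that differ from `e α` at
countably many places. -/
structure Node (e : Ordinal.{0} → Ordinal.{0} → Ordinal.{0}) (α : Ordinal.{0})
    (x : Ordinal.{0} → Ordinal.{0}) : Prop where
  lt2 : α < ω_ 2
  zero : ∀ ζ, α ≤ ζ → x ζ = 0
  pos : ∀ ζ < α, 0 < x ζ
  lt : ∀ ζ, x ζ < ω_ 1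
  coh : {ζ | ζ < α ∧ x ζ ≠ e α ζ}.Countable

open scoped Classical in
/-- restriction. -/
noncomputable def res (x : Ordinal.{0} → Ordinal.{0}) (γ : Ordinal.{0}) :
    Ordinal.{0} → Ordinal.{0} :=
  fun ζ => if ζ < γ then x ζ else 0

theorem res_of_lt {x : Ordinal.{0} → Ordinal.{0}} {γ ζ : Ordinal.{0}} (h : ζ < γ) :
    res x γ ζ = x ζ := if_pos h

theorem res_of_le {x : Ordinal.{0} → Ordinal.{0}} {γ ζ : Ordinal.{0}} (h : γ ≤ ζ) :
    res x γ ζ = 0 := if_neg (not_lt.2 h)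

/-- lexicographic order. -/
def LexLt (x y : Ordinal.{0} → Ordinal.{0}) : Prop := ∃ ζ, (∀ ξ < ζ, x ξ = y ξ) ∧ x ζ < y ζ

theorem LexLt.irrefl (x : Ordinal.{0} → Ordinal.{0}) : ¬ LexLt x x := by
  rintro ⟨ζ, _, h⟩; exact lt_irrefl _ h

theorem LexLt.trans {x y z : Ordinal.{0} → Ordinal.{0}} (h : LexLt x y) (h' : LexLt y z) :
    LexLt x z := by
  obtain ⟨ζ, h1, h2⟩ := h
  obtain ⟨ξ, h3, h4⟩ := h'
  rcases lt_trichotomy ζ ξ with h | rfl | h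
  · exact ⟨ζ, fun i hi => (h1 i hi).trans (h3 i (hi.trans h)), (h3 ζ h) ▸ h2⟩
  · exact ⟨ζ, fun i hi => (h1 i hi).trans (h3 i hi), h2.trans h4⟩
  · exact ⟨ξ, fun i hi => (h1 i (hi.trans h)).trans (h3 i hi), (h1 ξ h).symm ▸ h4⟩

theorem exists_first_diff {x y : Ordinal.{0} → Ordinal.{0}} (h : x ≠ y) :
    ∃ ζ, (∀ ξ < ζ, x ξ = y ξ) ∧ x ζ ≠ y ζ := by
  have hne : {ζ | x ζ ≠ y ζ}.Nonempty := by
    by_contra hn
    rw [not_nonempty_iff_eq_empty] at hn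
    apply h
    funext ζ
    by_contra h2
    have : ζ ∈ {ζ | x ζ ≠ y ζ} := h2
    rw [hn] at this
    exact this
  refine ⟨sInf {ζ | x ζ ≠ y ζ}, ?_, csInf_mem hne⟩
  intro ξ hξ
  by_contra h2
  exact absurd (csInf_le' (show ξ ∈ {ζ | x ζ ≠ y ζ} from h2)) (not_le.2 hξ)

theorem lexLt_trichotomy (x y : Ordinal.{0} → Ordinal.{0}) : x = y ∨ LexLt x y ∨ LexLt y x := by
  by_cases h : x = y
  · exact Or.inl h
  · right
    obtain ⟨ζ, h1, h2⟩ := exists_first_diff h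
    rcases lt_or_gt_of_ne h2 with h3 | h3
    · exact Or.inl ⟨ζ, h1, h3⟩
    · exact Or.inr ⟨ζ, fun i hi => (h1 i hi).symm, h3⟩

theorem LexLt.asymm {x y : Ordinal.{0} → Ordinal.{0}} (h : LexLt x y) : ¬ LexLt y x :=
  fun h' => LexLt.irrefl x (h.trans h')

variable {e : Ordinal.{0} → Ordinal.{0} → Ordinal.{0}}

theorem node_e (E : Good e) {β : Ordinal.{0}} (hβ : β < ω_ 2) : Node e β (e β) where
  lt2 := hβ
  zero := E.zero β
  pos := E.pos β hβ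
  lt := E.lt β hβ
  coh := by
    convert! Set.countable_empty
    ext ζ; simp

theorem Node.unique {α β : Ordinal.{0}} {x : Ordinal.{0} → Ordinal.{0}} (h : Node e α x)
    (h' : Node e β x) : α = β := by
  rcases lt_trichotomy α β with h1 | h1 | h1
  · exact absurd (h.zero α le_rfl) (h'.pos α h1).ne'
  · exact h1
  · exact absurd (h'.zero β le_rfl) (h.pos β h1).ne'

theorem Node.res (E : Good e) {α γ : Ordinal.{0}} {x : Ordinal.{0} → Ordinal.{0}}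
    (h : Node e α x) (hγ : γ ≤ α) : Node e γ (res x γ) where
  lt2 := lt_of_le_of_lt hγ h.lt2
  zero := fun ζ hζ => res_of_le hζ
  pos := fun ζ hζ => by rw [res_of_lt hζ]; exact h.pos ζ (lt_of_lt_of_le hζ hγ)
  lt := fun ζ => by
    rcases lt_or_ge ζ γ with h1 | h1
    · rw [res_of_lt h1]; exact h.lt ζ
    · rw [res_of_le h1]; exact omega_pos 1
  coh := by
    refine Countable.mono ?_ (h.coh.union (E.coh α h.lt2 γ hγ))
    rintro ζ ⟨hζ, h1⟩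
    rw [res_of_lt hζ] at h1
    by_contra hn
    simp only [mem_union, Set.mem_ofPred_eq, not_or, not_and, not_not] at hn
    apply h1
    rw [hn.1 (lt_of_lt_of_le hζ hγ), ← hn.2 hζ]

open scoped Classical in
theorem Node.ext (E : Good e) {α γ : Ordinal.{0}} {x : Ordinal.{0} → Ordinal.{0}}
    (h : Node e α x) (hγ : α ≤ γ) (hγ2 : γ < ω_ 2) :
    ∃ y, Node e γ y ∧ ∀ ξ < α, y ξ = x ξ := by
  refine ⟨fun ζ => if ζ < α then x ζ else e γ ζ, ?_, fun ξ hξ => if_pos hξ⟩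
  exact {
    lt2 := hγ2
    zero := fun ζ hζ => by
      simp only [not_lt.2 (hγ.trans hζ), if_false]
      exact E.zero γ ζ hζ
    pos := fun ζ hζ => by
      by_cases h1 : ζ < α
      · simp only [h1, if_true]; exact h.pos ζ h1
      · simp only [h1, if_false]; exact E.pos γ hγ2 ζ hζ
    lt := fun ζ => by
      by_cases h1 : ζ < α
      · simp only [h1, if_true]; exact h.lt ζ
      · simp only [h1, if_false]; exact E.lt γ hγ2 ζ
    coh := by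
      refine Countable.mono ?_ (h.coh.union (E.coh γ hγ2 α hγ))
      rintro ζ ⟨hζ, h1⟩
      by_cases h2 : ζ < α
      · simp only [h2, if_true] at h1
        by_contra hn
        simp only [mem_union, Set.mem_ofPred_eq, not_or, not_and, not_not] at hn
        apply h1
        rw [hn.1 h2, ← hn.2 h2]
      · simp only [h2, if_false] at h1
        exact absurd rfl h1 }

theorem Node.ctbl (E : Good e) {α ν : Ordinal.{0}} {x : Ordinal.{0} → Ordinal.{0}}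
    (h : Node e α x) (hν : ν < ω_ 1) : {ζ | ζ < α ∧ x ζ ≤ ν}.Countable := by
  refine Countable.mono ?_ (h.coh.union (E.ctbl α h.lt2 ν hν))
  rintro ζ ⟨hζ, h1⟩
  by_cases h2 : x ζ = e α ζ
  · right; exact ⟨hζ, h2 ▸ h1⟩
  · left; exact ⟨hζ, h2⟩

theorem Node.diff (E : Good e) {α β : Ordinal.{0}} {x y : Ordinal.{0} → Ordinal.{0}}
    (h : Node e α x) (h' : Node e β y) (hαβ : α ≤ β) :
    {ζ | ζ < α ∧ x ζ ≠ y ζ}.Countable := by
  refine Countable.mono ?_ ((h.coh.union (E.coh β h'.lt2 α hαβ)).union h'.coh)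
  rintro ζ ⟨hζ, h1⟩
  by_contra hn
  simp only [mem_union, Set.mem_ofPred_eq, not_or, not_and, not_not] at hn
  apply h1
  rw [hn.1.1 hζ, hn.1.2 hζ, hn.2 (lt_of_lt_of_le hζ hαβ)]

theorem Node.limit (E : Good e) {δ : Ordinal.{0}} {x : Ordinal.{0} → Ordinal.{0}}
    (hδ : δ < ω_ 2) (h0 : ∀ ζ, δ ≤ ζ → x ζ = 0) (α : ℕ → Ordinal.{0}) (hα : ∀ n, α n ≤ δ)
    (hcof : ∀ ζ < δ, ∃ n, ζ < α n) (h : ∀ n, Node e (α n) (H68.CL.res x (α n))) : Node e δ x where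
  lt2 := hδ
  zero := h0
  pos := fun ζ hζ => by
    obtain ⟨n, hn⟩ := hcof ζ hζ
    have := (h n).pos ζ hn
    rwa [res_of_lt hn] at this
  lt := fun ζ => by
    rcases lt_or_ge ζ δ with h1 | h1
    · obtain ⟨n, hn⟩ := hcof ζ h1
      have := (h n).lt ζ
      rwa [res_of_lt hn] at this
    · rw [h0 ζ h1]; exact omega_pos 1
  coh := by
    have h1 : {ζ | ζ < δ ∧ x ζ ≠ e δ ζ} ⊆ ⋃ n, ({ζ | ζ < α n ∧ H68.CL.res x (α n) ζ ≠ e (α n) ζ} ∪
        {ζ | ζ < α n ∧ e (α n) ζ ≠ e δ ζ}) := by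
      rintro ζ ⟨hζ, h1⟩
      obtain ⟨n, hn⟩ := hcof ζ hζ
      rw [mem_iUnion]
      refine ⟨n, ?_⟩
      by_contra h2
      simp only [mem_union, Set.mem_ofPred_eq, not_or, not_and, not_not] at h2
      apply h1
      have h3 := h2.1 hn
      rw [res_of_lt hn] at h3
      rw [h3, h2.2 hn]
    refine Countable.mono h1 (countable_iUnion fun n => ?_)
    exact (h n).coh.union (E.coh δ hδ _ (hα n))

theorem CH_lift (hCH : (2 : Cardinal.{0}) ^ ℵ₀ = ℵ₁) : (ℵ₁ : Cardinal.{1}) ^ ℵ₀ = ℵ₁ := by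
  have h1 := congrArg Cardinal.lift.{1, 0} hCH
  have h2 : (2 : Cardinal.{1}) ^ ℵ₀ = ℵ₁ := by simpa using h1
  rw [← h2, ← Cardinal.power_mul, Cardinal.aleph0_mul_aleph0]

theorem mk_countable_subsets (hCH : (2 : Cardinal.{0}) ^ ℵ₀ = ℵ₁) {A : Type 1} (hA : #A ≤ ℵ₁) :
    #{t : Set A // #t ≤ ℵ₀} ≤ ℵ₁ := by
  refine (mk_bounded_set_le A ℵ₀).trans ?_
  rw [← CH_lift hCH]
  refine (Cardinal.power_le_power_right (max_le hA (aleph0_le_aleph 1))).trans ?_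
  rw [CH_lift hCH]

theorem mk_Iio_one_le : #(Iio (ω_ 1 : Ordinal.{0})) ≤ ℵ₁ := mk_Iio_le omega_one_lt_two

theorem mk_prod_le_aleph_one {A B : Type 1} (hA : #A ≤ ℵ₁) (hB : #B ≤ ℵ₁) : #(A × B) ≤ ℵ₁ := by
  rw [Cardinal.mk_prod, Cardinal.lift_id, Cardinal.lift_id]
  exact Cardinal.mul_le_of_le (aleph0_le_aleph 1) hA hB

theorem mk_level_le (hCH : (2 : Cardinal.{0}) ^ ℵ₀ = ℵ₁) {α : Ordinal.{0}} (hα : α < ω_ 2) :
    #{x : Ordinal.{0} → Ordinal.{0} // Node e α x} ≤ ℵ₁ := by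
  refine le_trans ?_ (mk_countable_subsets hCH
    (mk_prod_le_aleph_one (mk_Iio_le hα) mk_Iio_one_le))
  refine Cardinal.mk_le_of_injective (f := fun x => ⟨{p | x.1 p.1.1 = p.2.1 ∧
    x.1 p.1.1 ≠ e α p.1.1}, ?_⟩) ?_
  · rw [Cardinal.le_aleph0_iff_set_countable]
    refine Set.MapsTo.countable_of_injOn (f := fun p => p.1.1) (t := {ζ | ζ < α ∧ x.1 ζ ≠ e α ζ})
      ?_ ?_ x.2.coh
    · rintro p ⟨h1, h2⟩
      exact ⟨p.1.2, h2⟩
    · rintro p ⟨h1, _⟩ q ⟨h3, _⟩ h5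
      have h6 : p.1 = q.1 := Subtype.ext h5
      refine Prod.ext h6 (Subtype.ext ?_)
      rw [← h1, ← h3, h6]
  · intro x y hxy
    have hxy' := congrArg Subtype.val hxy
    simp only at hxy'
    have hx : ∀ p : Iio α × Iio (ω_ 1 : Ordinal.{0}),
        (x.1 p.1.1 = p.2.1 ∧ x.1 p.1.1 ≠ e α p.1.1) ↔
        (y.1 p.1.1 = p.2.1 ∧ y.1 p.1.1 ≠ e α p.1.1) := by
      intro p
      have : p ∈ {p : Iio α × Iio (ω_ 1 : Ordinal.{0}) | x.1 p.1.1 = p.2.1 ∧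
          x.1 p.1.1 ≠ e α p.1.1} ↔ p ∈ {p : Iio α × Iio (ω_ 1 : Ordinal.{0}) |
          y.1 p.1.1 = p.2.1 ∧ y.1 p.1.1 ≠ e α p.1.1} := by rw [hxy']
      exact this
    apply Subtype.ext
    funext ζ
    rcases lt_or_ge ζ α with h | h
    · by_cases h1 : x.1 ζ = e α ζ
      · by_cases h2 : y.1 ζ = e α ζ
        · rw [h1, h2]
        · exact ((hx (⟨ζ, h⟩, ⟨y.1 ζ, y.2.lt ζ⟩)).2 ⟨rfl, h2⟩).1
      · exact ((hx (⟨ζ, h⟩, ⟨x.1 ζ, x.2.lt ζ⟩)).1 ⟨rfl, h1⟩).1.symm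
    · rw [x.2.zero ζ h, y.2.zero ζ h]

end H68.CL
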