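import Pool.Agent.H68.CL.Embed

open Set Cardinal Ordinal Order
open scoped Ordinal Cardinal

namespace H68.CL

variable {e : Ordinal.{0} → Ordinal.{0} → Ordinal.{0}}
  {b : (Ordinal.{0} → Ordinal.{0}) → Ordinal.{0}}

/-- families of nodes (with their lengths) -/
abbrev Fam : Type 1 := Ordinal.{0} → (Ordinal.{0} → Ordinal.{0}) → Prop

/-- A family of nodes with lengths in `InE`, at least `α₀`, closed under restrictions to such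
lengths. -/
structure Down (e : Ordinal.{0} → Ordinal.{0} → Ordinal.{0})
    (b : (Ordinal.{0} → Ordinal.{0}) → Ordinal.{0}) (V : Fam) (α₀ : Ordinal.{0}) : Prop where
  node : ∀ α s, V α s → Node e α s
  inE : ∀ α s, V α s → InE e b α
  le : ∀ α s, V α s → α₀ ≤ α
  rst : ∀ α s, V α s → ∀ γ, InE e b γ → α₀ ≤ γ → γ ≤ α → V γ (res s γ)

/-- `t` has arbitrarily long extensions in `V`. -/
def Long (V : Fam) (α : Ordinal.{0}) (t : Ordinal.{0} → Ordinal.{0}) : Prop :=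
  ∀ γ < ω_ 2, ∃ α' s, V α' s ∧ α ≤ α' ∧ γ ≤ α' ∧ ∀ ξ < α, s ξ = t ξ

/-- the pruned part -/
def prune (V : Fam) : Fam := fun α t => V α t ∧ Long V α t

theorem Down.prune_down {V : Fam} {α₀ : Ordinal.{0}} (D : Down e b V α₀) :
    Down e b (prune V) α₀ where
  node := fun α s h => D.node α s h.1
  inE := fun α s h => D.inE α s h.1
  le := fun α s h => D.le α s h.1
  rst := fun α s h γ h1 h2 h3 => by
    refine ⟨D.rst α s h.1 γ h1 h2 h3, ?_⟩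
    intro ε hε
    obtain ⟨α', s', h4, h5, h6, h7⟩ := h.2 ε hε
    refine ⟨α', s', h4, h3.trans h5, h6, fun ξ hξ => ?_⟩
    rw [res_of_lt hξ]
    exact h7 ξ (lt_of_lt_of_le hξ h3)

theorem Down.prune_long (hCH : (2 : Cardinal.{0}) ^ ℵ₀ = ℵ₁) (E : Good e) (M : Emb e b) {V : Fam}
    {α₀ : Ordinal.{0}} (D : Down e b V α₀) {α : Ordinal.{0}} {t : Ordinal.{0} → Ordinal.{0}}
    (h : prune V α t) : Long (prune V) α t := by
  intro γ hγ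
  obtain ⟨ε, hε, hεE⟩ := InE.unbounded hCH E M (max_lt (D.node α t h.1).lt2 hγ)
  have hαε : α ≤ ε := (le_max_left _ _).trans hε.le
  have hγε : γ ≤ ε := (le_max_right _ _).trans hε.le
  by_contra hn
  push Not at hn
  have h1 : ∀ u : {x : Ordinal.{0} → Ordinal.{0} // Node e ε x}, ∃ Γ < (ω_ 2 : Ordinal.{0}),
      V ε u.1 → (∀ ξ < α, u.1 ξ = t ξ) → ∀ α' s, V α' s → ε ≤ α' → Γ ≤ α' →
        ∃ ξ < ε, s ξ ≠ u.1 ξ := by
    intro u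
    by_cases hu : V ε u.1 ∧ ∀ ξ < α, u.1 ξ = t ξ
    · have h2 : ¬ Long V ε u.1 := by
        intro hL
        obtain ⟨ξ, h3, h4⟩ := hn ε u.1 ⟨hu.1, hL⟩ hαε hγε
        exact h4 (hu.2 ξ h3)
      rw [Long] at h2
      push Not at h2
      obtain ⟨Γ, hΓ, h3⟩ := h2
      exact ⟨Γ, hΓ, fun _ _ => h3⟩
    · exact ⟨0, two_pos, fun h3 h4 => absurd ⟨h3, h4⟩ hu⟩
  choose Γ hΓ hΓ2 using h1
  obtain ⟨Δ, hΔ, h2⟩ := exists_bound_two (mk_level_le hCH hεE.lt2) Γ hΓ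
  obtain ⟨α', s, h3, h4, h5, h6⟩ := h.2 (max Δ ε) (max_lt hΔ hεE.lt2)
  have h7 : ε ≤ α' := (le_max_right _ _).trans h5
  have h8 : V ε (res s ε) := D.rst α' s h3 ε hεE ((D.le _ _ h.1).trans hαε) h7
  obtain ⟨ξ, h9, h10⟩ := hΓ2 ⟨res s ε, D.node _ _ h8⟩ h8 (fun ξ hξ => by
    show res s ε ξ = t ξ
    rw [res_of_lt (lt_of_lt_of_le hξ hαε)]; exact h6 ξ hξ) α' s h3 h7
    (((h2 _).trans (le_max_left _ _)).trans h5)
  apply h10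
  show s ξ = res s ε ξ
  rw [res_of_lt h9]

/-- the minimal value attained beyond `t` -/
noncomputable def jmin (e : Ordinal.{0} → Ordinal.{0} → Ordinal.{0})
    (b : (Ordinal.{0} → Ordinal.{0}) → Ordinal.{0}) (V : Fam) (α : Ordinal.{0})
    (t : Ordinal.{0} → Ordinal.{0}) : Ordinal.{0} :=
  sInf {v | ∃ α' s, V α' s ∧ α ≤ α' ∧ (∀ ξ < α, s ξ = t ξ) ∧ ∃ m, α ≤ m ∧ m < α' ∧ e (b s) m = v}

theorem jmin_le {V : Fam} {α α' m : Ordinal.{0}} {t s : Ordinal.{0} → Ordinal.{0}}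
    (h1 : V α' s) (h2 : α ≤ α') (h3 : ∀ ξ < α, s ξ = t ξ) (h4 : α ≤ m) (h5 : m < α') :
    jmin e b V α t ≤ e (b s) m :=
  csInf_le' ⟨α', s, h1, h2, h3, m, h4, h5, rfl⟩

/-- a pruned family -/
structure Pruned (e : Ordinal.{0} → Ordinal.{0} → Ordinal.{0})
    (b : (Ordinal.{0} → Ordinal.{0}) → Ordinal.{0}) (V : Fam) (α₀ : Ordinal.{0}) : Prop
    extends Down e b V α₀ where
  long : ∀ α t, V α t → Long V α t

theorem Pruned.jmin_mem {V : Fam} {α₀ α : Ordinal.{0}} {t : Ordinal.{0} → Ordinal.{0}}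
    (P : Pruned e b V α₀) (h : V α t) :
    ∃ α' s, V α' s ∧ α ≤ α' ∧ (∀ ξ < α, s ξ = t ξ) ∧
      ∃ m, α ≤ m ∧ m < α' ∧ e (b s) m = jmin e b V α t := by
  have hne : {v | ∃ α' s, V α' s ∧ α ≤ α' ∧ (∀ ξ < α, s ξ = t ξ) ∧
      ∃ m, α ≤ m ∧ m < α' ∧ e (b s) m = v}.Nonempty := by
    obtain ⟨α', s, h1, h2, h3, h4⟩ := P.long α t h (α + 1) (succ_lt_two (P.inE α t h).lt2)
    exact ⟨_, α', s, h1, h2, h4, α, le_rfl, Order.add_one_le_iff.1 h3, rfl⟩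
  exact csInf_mem hne

/-- extensions of `t` in `V` which do not attain the minimal value beyond `t` -/
def Avoid (e : Ordinal.{0} → Ordinal.{0} → Ordinal.{0})
    (b : (Ordinal.{0} → Ordinal.{0}) → Ordinal.{0}) (V : Fam) (α : Ordinal.{0})
    (t : Ordinal.{0} → Ordinal.{0}) : Fam :=
  fun β s => V β s ∧ α ≤ β ∧ (∀ ξ < α, s ξ = t ξ) ∧
    ∀ m, α ≤ m → m < β → e (b s) m ≠ jmin e b V α t

theorem Node.agree {α γ : Ordinal.{0}} {s s' : Ordinal.{0} → Ordinal.{0}} {β : Ordinal.{0}}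
    (h : Node e α s) (h' : Node e β s') (h1 : γ ≤ α) (h2 : γ ≤ β) (h3 : ∀ ξ < γ, s ξ = s' ξ) :
    Agree e γ s s' := ⟨⟨α, h1, h⟩, ⟨β, h2, h'⟩, h3⟩

theorem Down.le_b {V : Fam} {α₀ α : Ordinal.{0}} {s : Ordinal.{0} → Ordinal.{0}}
    (D : Down e b V α₀) (h : V α s) : α ≤ b s :=
  (D.inE α s h).le s s ((D.node α s h).agree (D.node α s h) le_rfl le_rfl fun _ _ => rfl)

theorem Pruned.exists_avoid (hCH : (2 : Cardinal.{0}) ^ ℵ₀ = ℵ₁) (E : Good e) (M : Emb e b)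
    {V : Fam} {α₀ α : Ordinal.{0}} {t : Ordinal.{0} → Ordinal.{0}}
    (P : Pruned e b V α₀) (h : V α t) :
    ∃ α₁ t₁, V α₁ t₁ ∧ α ≤ α₁ ∧ (∀ ξ < α, t₁ ξ = t ξ) ∧ Long (Avoid e b V α₁ t₁) α₁ t₁ := by
  classical
  by_contra hn
  push Not at hn
  have h1 : ∀ α₁ : Ordinal.{0}, ∃ Γ : Ordinal.{0}, α₁ < ω_ 2 → (Γ < ω_ 2 ∧
      (∃ ε, α₁ < ε ∧ ε ≤ Γ ∧ InE e b ε) ∧ ∀ t₁, V α₁ t₁ → α ≤ α₁ → (∀ ξ < α, t₁ ξ = t ξ) →
        ∀ α₂ s, Avoid e b V α₁ t₁ α₂ s → ¬ (Γ ≤ α₂)) := by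
    intro α₁
    by_cases hα₁ : α₁ < ω_ 2
    · have h2 : ∀ u : {x : Ordinal.{0} → Ordinal.{0} // Node e α₁ x}, ∃ Γ < (ω_ 2 : Ordinal.{0}),
          V α₁ u.1 → α ≤ α₁ → (∀ ξ < α, u.1 ξ = t ξ) →
          ∀ α₂ s, Avoid e b V α₁ u.1 α₂ s → ¬ (Γ ≤ α₂) := by
        intro u
        by_cases hu : V α₁ u.1 ∧ α ≤ α₁ ∧ ∀ ξ < α, u.1 ξ = t ξ
        · have h3 := hn α₁ u.1 hu.1 hu.2.1 hu.2.2
          rw [Long] at h3
          push Not at h3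
          obtain ⟨Γ, hΓ, h4⟩ := h3
          refine ⟨Γ, hΓ, fun _ _ _ α₂ s hs hle => ?_⟩
          obtain ⟨ξ, h5, h6⟩ := h4 α₂ s hs hs.2.1 hle
          exact h6 (hs.2.2.1 ξ h5)
        · exact ⟨0, two_pos, fun h3 h4 h5 => absurd ⟨h3, h4, h5⟩ hu⟩
      choose Γ hΓ hΓ2 using h2
      obtain ⟨Δ, hΔ, h3⟩ := exists_bound_two (mk_level_le hCH hα₁) Γ hΓ
      obtain ⟨ε, hε, hεE⟩ := InE.unbounded hCH E M hα₁
      refine ⟨max Δ ε, fun _ => ⟨max_lt hΔ hεE.lt2, ⟨ε, hε, le_max_right _ _, hεE⟩, ?_⟩⟩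
      intro t₁ h4 h5 h6 α₂ s h7 h8
      exact hΓ2 ⟨t₁, P.node _ _ h4⟩ h4 h5 h6 α₂ s h7 (((h3 _).trans (le_max_left _ _)).trans h8)
    · exact ⟨0, fun h => absurd h hα₁⟩
  choose G hG using h1
  obtain ⟨δ, hδ, hαδ, hc, hs, hcof⟩ := exists_closed G (fun ζ hζ => (hG ζ hζ).1)
    (P.inE α t h).lt2
  have hE : ∀ ζ < δ, ∃ ε, ζ < ε ∧ ε < δ ∧ InE e b ε := by
    intro ζ hζ
    obtain ⟨ε, h1, h2, h3⟩ := (hG ζ (lt_trans hζ hδ)).2.1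
    exact ⟨ε, h1, lt_of_le_of_lt h2 (hc ζ hζ), h3⟩
  obtain ⟨α', s, hs1, hs2, hs3, hs4⟩ := P.long α t h (δ + 1) (succ_lt_two hδ)
  have hδα' : δ < α' := Order.add_one_le_iff.1 hs3
  have hα'b : α' ≤ b s := P.le_b hs1
  have hbs : b s < ω_ 2 := M.lt _ _ (P.node _ _ hs1)
  obtain ⟨μ, hμ, hμ2⟩ := hcof {m | m < δ ∧ e (b s) m ≤ e (b s) δ} (by
    refine Countable.mono ?_ (E.ctbl (b s) hbs (e (b s) δ) (E.lt _ hbs δ))
    rintro m ⟨h1, h2⟩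
    exact ⟨lt_of_lt_of_le (lt_trans h1 hδα') hα'b, h2⟩) (fun a ha => ha.1)
  obtain ⟨ε, hε, hεδ, hεE⟩ := hE _ (max_lt hαδ hμ)
  have hαε : α < ε := lt_of_le_of_lt (le_max_left _ _) hε
  have hμε : μ < ε := lt_of_le_of_lt (le_max_right _ _) hε
  obtain ⟨ε', hε', hε'δ, hε'E⟩ := hE _ (max_lt hεδ (hc ε hεδ))
  have hεε' : ε < ε' := lt_of_le_of_lt (le_max_left _ _) hε'
  have hGε' : G ε < ε' := lt_of_le_of_lt (le_max_right _ _) hε'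
  have hα₀ : α₀ ≤ α := P.le _ _ h
  have ht₁ : V ε (res s ε) := P.rst _ _ hs1 ε hεE (hα₀.trans hαε.le) (hεδ.trans hδα').le
  have hs' : V ε' (res s ε') :=
    P.rst _ _ hs1 ε' hε'E (hα₀.trans (hαε.trans hεε').le) (hε'δ.trans hδα').le
  have h2 := (hG ε hεE.lt2).2.2 (res s ε) ht₁ hαε.le (fun ξ hξ => by
    rw [res_of_lt (lt_trans hξ hαε)]; exact hs4 ξ hξ) ε' (res s ε')
  have h3 : ¬ Avoid e b V ε (res s ε) ε' (res s ε') := fun h => h2 h hGε'.le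
  apply h3
  refine ⟨hs', hεε'.le, fun ξ hξ => ?_, ?_⟩
  · rw [res_of_lt hξ, res_of_lt (lt_trans hξ hεε')]
  · intro m hm1 hm2 hm3
    have h4 : e (b (res s ε')) m = e (b s) m :=
      hε'E.eq _ _ ((P.node _ _ hs').agree (P.node _ _ hs1) le_rfl (hε'δ.trans hδα').le
        (fun ξ hξ => res_of_lt hξ)) m hm2
    have h5 : jmin e b V ε (res s ε) ≤ e (b s) δ :=
      jmin_le hs1 (hεδ.trans hδα').le (fun ξ hξ => (res_of_lt hξ).symm) hεδ.le hδα'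
    rw [← hm3, h4] at h5
    have h6 := hμ2 m ⟨lt_trans hm2 hε'δ, h5⟩
    exact absurd (h6.trans_lt hμε) (not_lt.2 hm1)

end H68.CL
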