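import Pool.Agent.H68.CL.Final
import Pool.Agent.H68.CL.Country

open Set Cardinal Ordinal Order
open scoped Ordinal Cardinal

namespace H68.CL

/-- the nodes -/
abbrev Nd (e : Ordinal.{0} → Ordinal.{0} → Ordinal.{0}) : Type 1 :=
  {x : Ordinal.{0} → Ordinal.{0} // ∃ α, Node e α x}

theorem small_Nd (e : Ordinal.{0} → Ordinal.{0} → Ordinal.{0}) : Small.{0} (Nd e) := by
  have h : ∀ x : Nd e, ∀ ζ, x.1 ζ < ω_ 1 := fun x ζ => by
    obtain ⟨α, h⟩ := x.2; exact h.lt ζ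
  refine small_of_injective (β := Iio (ω_ 2 : Ordinal.{0}) → Iio (ω_ 1 : Ordinal.{0}))
    (f := fun x ζ => ⟨x.1 ζ.1, h x ζ.1⟩) ?_
  intro x y hxy
  apply Subtype.ext
  funext ζ
  rcases lt_or_ge ζ (ω_ 2) with h1 | h1
  · exact congrArg Subtype.val (congrFun hxy ⟨ζ, h1⟩)
  · obtain ⟨α, hx⟩ := x.2
    obtain ⟨β, hy⟩ := y.2
    rw [hx.zero ζ (hx.lt2.le.trans h1), hy.zero ζ (hy.lt2.le.trans h1)]

theorem e_injOn {e : Ordinal.{0} → Ordinal.{0} → Ordinal.{0}} (E : Good e) {β γ : Ordinal.{0}}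
    (hβ : β < ω_ 2) (hγ : γ < ω_ 2) (h : e β = e γ) : β = γ := by
  have h1 := node_e E hβ
  rw [h] at h1
  exact h1.unique (node_e E hγ)

/-- A copy in `Type` of the line of nodes. -/
theorem exists_line (hCH : (2 : Cardinal.{0}) ^ ℵ₀ = ℵ₁) :
    ∃ (L : Type) (_ : LinearOrder L),
      (ℵ₁ < #L ∧ ∃ (ι : Type) (C : ι → Set (L × L)), #ι = ℵ₁ ∧ (∀ i, IsChain (· ≤ ·) (C i)) ∧
        ⋃ i, C i = Set.univ) ∧
      ∃ S : Set L, ℵ₁ < #S ∧ ¬ ∃ f : L → S, StrictMono f := by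
  classical
  obtain ⟨e, E⟩ := exists_good
  obtain ⟨L, ⟨φ⟩⟩ : ∃ L : Type, Nonempty (L ≃ Nd e) := by
    have := small_Nd e
    exact ⟨Shrink.{0} (Nd e), ⟨(equivShrink (Nd e)).symm⟩⟩
  let r : L → L → Prop := fun a c => LexLt (φ a).1 (φ c).1
  have hr : IsStrictTotalOrder L r :=
    { trichotomous := fun a c h1 h2 => by
        rcases lexLt_trichotomy (φ a).1 (φ c).1 with h | h | h
        · exact φ.injective (Subtype.ext h)
        · exact absurd h h1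
        · exact absurd h h2
      irrefl := fun a => LexLt.irrefl _
      trans := fun a c d h1 h2 => LexLt.trans h1 h2 }
  let _ : LinearOrder L := linearOrderOfSTO r
  have hlt : ∀ a c : L, a < c ↔ LexLt (φ a).1 (φ c).1 := fun a c => Iff.rfl
  let S : Set L := {a | ∃ β < (ω_ 2 : Ordinal.{0}), (φ a).1 = e β}
  have hS : ℵ₁ < #S := by
    have h1 : ∀ β : Iio (ω_ 2 : Ordinal.{0}), ∃ a : S, (φ a.1).1 = e β.1 := fun β =>
      ⟨⟨φ.symm ⟨e β.1, β.1, node_e E β.2⟩, β.1, β.2, by simp⟩, by simp⟩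
    choose g hg using h1
    have h2 : Nonempty (Iio (ω_ 2 : Ordinal.{0}) ↪ S) := ⟨⟨g, fun β γ h => by
      have h3 := hg β
      rw [h, hg γ] at h3
      exact Subtype.ext (e_injOn E β.2 γ.2 h3.symm)⟩⟩
    have h3 := Cardinal.lift_mk_le'.2 h2
    rw [Cardinal.mk_Iio_ordinal, card_omega] at h3
    have h4 : (ℵ_ 2 : Cardinal.{1}) ≤ Cardinal.lift.{1} #S := by simpa using h3
    have h5 : (ℵ₁ : Cardinal.{1}) < Cardinal.lift.{1} #S := by
      refine lt_of_lt_of_le ?_ h4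
      rw [aleph_lt_aleph]; norm_num
    have h6 : Cardinal.lift.{1} (ℵ₁ : Cardinal.{0}) < Cardinal.lift.{1} #S := by simpa using h5
    exact Cardinal.lift_lt.1 h6
  refine ⟨L, inferInstance, ⟨hS.trans_le (mk_set_le S), ?_⟩, S, hS, ?_⟩
  · obtain ⟨K, R, hK, hR1, hR2⟩ := countryman hCH E
    let ι : Type := (ℵ₁ : Cardinal.{0}).out
    have hι : #ι = ℵ₁ := Cardinal.mk_out _
    have hemb : Nonempty (K ↪ ι) := by
      rw [← Cardinal.lift_mk_le', hι]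
      simpa using hK
    obtain ⟨κ⟩ := hemb
    refine ⟨ι, fun i => {p | ∃ k, κ k = i ∧ R (φ p.1).1 (φ p.2).1 k}, hι, ?_, ?_⟩
    · rintro i ⟨a, c⟩ ⟨k, hk, h1⟩ ⟨a', c'⟩ ⟨k', hk', h1'⟩ -
      have : k = k' := κ.injective (hk.trans hk'.symm)
      subst this
      have h2 := hR2 _ _ _ _ _ h1 h1'
      have h3 := hR2 _ _ _ _ _ h1' h1
      simp only at h2 h3
      rw [← hlt, ← hlt] at h2 h3
      have h4 : (a ≤ a' ∧ c ≤ c') ∨ (a' ≤ a ∧ c' ≤ c) := by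
        rcases lt_trichotomy a a' with h | h | h
        · left
          exact ⟨h.le, not_lt.1 fun h5 => h2 ⟨h, h5⟩⟩
        · rcases le_total c c' with h5 | h5
          · left; exact ⟨h.le, h5⟩
          · right; exact ⟨h.ge, h5⟩
        · right
          exact ⟨h.le, not_lt.1 fun h5 => h3 ⟨h, h5⟩⟩
      rcases h4 with h | h
      · left; exact h
      · right; exact h
    · rw [eq_univ_iff_forall]
      rintro ⟨a, c⟩
      obtain ⟨α, ha⟩ := (φ a).2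
      obtain ⟨β, hc⟩ := (φ c).2
      obtain ⟨k, hk⟩ := hR1 _ _ _ _ ha hc
      exact mem_iUnion.2 ⟨κ k, k, rfl, hk⟩
  · rintro ⟨f, hf⟩
    have h1 : ∀ x : Ordinal.{0} → Ordinal.{0}, ∃ β : Ordinal.{0}, ∀ h : ∃ α, Node e α x,
        β < ω_ 2 ∧ (φ (f (φ.symm ⟨x, h⟩)).1).1 = e β := by
      intro x
      by_cases h : ∃ α, Node e α x
      · obtain ⟨β, hβ, hβ2⟩ := (f (φ.symm ⟨x, h⟩)).2
        exact ⟨β, fun _ => ⟨hβ, hβ2⟩⟩
      · exact ⟨0, fun h' => absurd h' h⟩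
    choose b hb using h1
    refine no_emb (b := b) hCH E ⟨fun α x h => (hb x ⟨α, h⟩).1, ?_⟩
    intro α β x y hx hy hxy
    rw [← (hb x ⟨α, hx⟩).2, ← (hb y ⟨β, hy⟩).2]
    rw [← hlt]
    apply hf
    rw [hlt]
    simpa using hxy

end H68.CL
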