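import Pool.Agent.H68.CL.Basic

open Set Cardinal Ordinal Order
open scoped Ordinal Cardinal

namespace H68.CL

/-- For every `β < ω₂`, `c β` restricted to `θ β ≤ ω₁` is a strictly increasing cofinal sequence
in `β`. -/
structure Ladder (θ : Ordinal.{0} → Ordinal.{0}) (c : Ordinal.{0} → Ordinal.{0} → Ordinal.{0}) :
    Prop where
  le : ∀ β < ω_ 2, θ β ≤ ω_ 1
  mono : ∀ β < ω_ 2, ∀ i j, i < j → j < θ β → c β i < c β j
  lt : ∀ β < ω_ 2, ∀ j < θ β, c β j < β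
  cof : ∀ β < ω_ 2, ∀ ζ < β, ∃ j < θ β, ζ ≤ c β j

theorem exists_ladder : ∃ θ c, Ladder θ c := by
  classical
  have h : ∀ β : Ordinal.{0}, ∃ (θ : Ordinal.{0}) (c : Ordinal.{0} → Ordinal.{0}), β < ω_ 2 →
      θ ≤ ω_ 1 ∧ (∀ i j, i < j → j < θ → c i < c j) ∧ (∀ j < θ, c j < β) ∧
      (∀ ζ < β, ∃ j < θ, ζ ≤ c j) := by
    intro β
    by_cases hβ : β < ω_ 2
    · obtain ⟨f, hf⟩ := Ordinal.exists_isFundamentalSeq (o := β) (a := β.cof.ord) rfl
      refine ⟨β.cof.ord, fun j => if h : j < β.cof.ord then (f ⟨j, h⟩).1 else 0, fun _ => ?_⟩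
      refine ⟨?_, ?_, ?_, ?_⟩
      · rw [← ord_aleph, ord_le_ord]
        refine (Ordinal.cof_le_card β).trans ?_
        rw [lt_omega_iff_card_lt] at hβ
        have h2 : (ℵ_ 2 : Cardinal.{0}) = succ ℵ₁ := by
          rw [succ_aleph]; norm_num
        rwa [h2, Order.lt_succ_iff] at hβ
      · intro i j hij hj
        have hi : i < β.cof.ord := lt_trans hij hj
        simp only [hi, hj, dif_pos]
        exact hf.strictMono (show (⟨i, hi⟩ : Iio β.cof.ord) < ⟨j, hj⟩ from hij)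
      · intro j hj
        simp only [hj, dif_pos]
        exact (f ⟨j, hj⟩).2
      · intro ζ hζ
        obtain ⟨_, ⟨j, rfl⟩, hj⟩ := hf.isCofinal_range ⟨ζ, hζ⟩
        refine ⟨j.1, j.2, ?_⟩
        have : j.1 < β.cof.ord := j.2
        simp only [this, dif_pos]
        exact hj
    · exact ⟨0, fun _ => 0, fun h => absurd h hβ⟩
  choose θ c hc using h
  exact ⟨θ, c, ⟨fun β h => (hc β h).1, fun β h => (hc β h).2.1, fun β h => (hc β h).2.2.1,
    fun β h => (hc β h).2.2.2⟩⟩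

/-- the least index of a mark `≥ ζ`. -/
noncomputable def idx (θ : Ordinal.{0} → Ordinal.{0}) (c : Ordinal.{0} → Ordinal.{0} → Ordinal.{0})
    (β ζ : Ordinal.{0}) : Ordinal.{0} :=
  sInf {j | j < θ β ∧ ζ ≤ c β j}

open scoped Classical in
/-- the walk function. -/
noncomputable def walk (θ : Ordinal.{0} → Ordinal.{0}) (c : Ordinal.{0} → Ordinal.{0} → Ordinal.{0})
    (β ζ : Ordinal.{0}) : Ordinal.{0} :=
  if h : ζ < β ∧ c β (idx θ c β ζ) < β then
    (1 + idx θ c β ζ) + walk θ c (c β (idx θ c β ζ)) ζ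
  else 0
termination_by β
decreasing_by exact h.2

variable {θ : Ordinal.{0} → Ordinal.{0}} {c : Ordinal.{0} → Ordinal.{0} → Ordinal.{0}}

theorem Ladder.idx_mem (L : Ladder θ c) {β ζ : Ordinal.{0}} (hβ : β < ω_ 2) (hζ : ζ < β) :
    idx θ c β ζ < θ β ∧ ζ ≤ c β (idx θ c β ζ) := by
  have : (sInf {j | j < θ β ∧ ζ ≤ c β j}) ∈ {j | j < θ β ∧ ζ ≤ c β j} :=
    csInf_mem (L.cof β hβ ζ hζ)
  exact this

theorem idx_le {β ζ j : Ordinal.{0}} (hj : j < θ β) (h : ζ ≤ c β j) : idx θ c β ζ ≤ j :=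
  csInf_le' ⟨hj, h⟩

theorem Ladder.lt_of_lt_idx (L : Ladder θ c) {β ζ j : Ordinal.{0}} (hβ : β < ω_ 2) (hζ : ζ < β)
    (hj : j < idx θ c β ζ) : c β j < ζ := by
  by_contra h
  exact absurd (idx_le (lt_trans hj (L.idx_mem hβ hζ).1) (not_lt.1 h)) (not_le.2 hj)

theorem Ladder.idx_mono (L : Ladder θ c) {β ζ ξ : Ordinal.{0}} (hβ : β < ω_ 2) (hξ : ξ < β)
    (h : ζ ≤ ξ) : idx θ c β ζ ≤ idx θ c β ξ :=
  idx_le (L.idx_mem hβ hξ).1 (h.trans (L.idx_mem hβ hξ).2)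

theorem Ladder.mark_lt (L : Ladder θ c) {β ζ : Ordinal.{0}} (hβ : β < ω_ 2) (hζ : ζ < β) :
    c β (idx θ c β ζ) < β := L.lt β hβ _ (L.idx_mem hβ hζ).1

theorem walk_zero {β ζ : Ordinal.{0}} (h : β ≤ ζ) : walk θ c β ζ = 0 := by
  rw [walk, dif_neg]
  rintro ⟨h1, _⟩
  exact absurd h (not_le.2 h1)

theorem Ladder.walk_eq (L : Ladder θ c) {β ζ : Ordinal.{0}} (hβ : β < ω_ 2) (hζ : ζ < β) :
    walk θ c β ζ = (1 + idx θ c β ζ) + walk θ c (c β (idx θ c β ζ)) ζ := by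
  rw [walk, dif_pos ⟨hζ, L.mark_lt hβ hζ⟩]

theorem Ladder.idx_lt_one (L : Ladder θ c) {β ζ : Ordinal.{0}} (hβ : β < ω_ 2) (hζ : ζ < β) :
    idx θ c β ζ < ω_ 1 := lt_of_lt_of_le (L.idx_mem hβ hζ).1 (L.le β hβ)

theorem Ladder.le_walk (L : Ladder θ c) {β ζ : Ordinal.{0}} (hβ : β < ω_ 2) (hζ : ζ < β) :
    1 + idx θ c β ζ ≤ walk θ c β ζ := by
  rw [L.walk_eq hβ hζ]
  exact le_self_add

theorem Ladder.walk_pos (L : Ladder θ c) {β ζ : Ordinal.{0}} (hβ : β < ω_ 2) (hζ : ζ < β) :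
    0 < walk θ c β ζ := by
  refine lt_of_lt_of_le ?_ (L.le_walk hβ hζ)
  refine lt_of_lt_of_le zero_lt_one ?_
  exact le_self_add

theorem one_add_lt {j : Ordinal.{0}} (h : j < ω_ 1) : 1 + j < ω_ 1 :=
  isPrincipal_add_omega 1 (lt_trans one_lt_omega0 omega0_lt_omega_one) h

theorem Ladder.walk_lt (L : Ladder θ c) {β : Ordinal.{0}} (hβ : β < ω_ 2) (ζ : Ordinal.{0}) :
    walk θ c β ζ < ω_ 1 := by
  induction β using WellFoundedLT.induction with
  | _ β ih =>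
    rcases lt_or_ge ζ β with h | h
    · rw [L.walk_eq hβ h]
      exact isPrincipal_add_omega 1 (one_add_lt (L.idx_lt_one hβ h))
        (ih _ (L.mark_lt hβ h) (lt_trans (L.mark_lt hβ h) hβ))
    · rw [walk_zero h]; exact omega_pos 1

theorem Ladder.walk_mark (L : Ladder θ c) {β j : Ordinal.{0}} (hβ : β < ω_ 2) (hj : j < θ β) :
    idx θ c β (c β j) = j ∧ walk θ c β (c β j) = 1 + j := by
  have h1 : idx θ c β (c β j) = j := by
    apply le_antisymm (idx_le hj le_rfl)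
    by_contra h
    have := L.mono β hβ _ _ (not_le.1 h) hj
    exact absurd (L.idx_mem hβ (L.lt β hβ j hj)).2 (not_le.2 this)
  refine ⟨h1, ?_⟩
  rw [L.walk_eq hβ (L.lt β hβ j hj), h1, walk_zero le_rfl, add_zero]

theorem Ladder.walk_countable (L : Ladder θ c) {β : Ordinal.{0}} (hβ : β < ω_ 2) {ν : Ordinal.{0}}
    (hν : ν < ω_ 1) : {ζ | ζ < β ∧ walk θ c β ζ ≤ ν}.Countable := by
  induction β using WellFoundedLT.induction with
  | _ β ih =>
    have h : {ζ | ζ < β ∧ walk θ c β ζ ≤ ν} ⊆ ⋃ j ∈ {j | j ≤ ν ∧ j < θ β},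
        (insert (c β j) {ζ | ζ < c β j ∧ walk θ c (c β j) ζ ≤ ν}) := by
      rintro ζ ⟨hζ, h⟩
      have h1 := L.walk_eq hβ hζ
      have h2 := L.le_walk hβ hζ
      have h3 := L.idx_mem hβ hζ
      rw [mem_iUnion₂]
      refine ⟨idx θ c β ζ, ⟨?_, h3.1⟩, ?_⟩
      · exact (le_add_self.trans h2).trans h
      · rcases h3.2.eq_or_lt with h4 | h4
        · left; exact h4
        · right
          refine ⟨h4, ?_⟩
          rw [h1] at h
          exact le_add_self.trans h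
    refine Countable.mono h ?_
    refine Countable.biUnion ((countable_Iic hν).mono fun j hj => hj.1) ?_
    intro j hj
    refine Countable.insert _ ?_
    exact ih _ (L.lt β hβ j hj.2) (lt_trans (L.lt β hβ j hj.2) hβ)

theorem add_of_mul_le {a v : Ordinal.{0}} (h : a * ω < v) : a + v = v := by
  obtain ⟨w, rfl⟩ := exists_add_of_le h.le
  rw [← add_assoc]
  congr 1
  have : a + a * ω = a * (1 + ω) := by rw [mul_add, mul_one]
  rw [this, one_add_omega0]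

theorem mul_omega_lt {a : Ordinal.{0}} (h : a < ω_ 1) : a * ω < ω_ 1 :=
  isPrincipal_mul_omega 1 h omega0_lt_omega_one

theorem Ladder.walk_coh (L : Ladder θ c) {β : Ordinal.{0}} (hβ : β < ω_ 2) :
    ∀ α ≤ β, {ζ | ζ < α ∧ walk θ c α ζ ≠ walk θ c β ζ}.Countable := by
  induction β using WellFoundedLT.induction with
  | _ β ih =>
    intro α hα
    rcases hα.eq_or_lt with rfl | hα
    · convert! Set.countable_empty
      ext ζ; simp
    have hα2 : α < ω_ 2 := lt_trans hα hβ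
    set J := idx θ c β α with hJ
    have hJ1 := L.idx_mem hβ hα
    rw [← hJ] at hJ1
    have hJβ : c β J < β := L.mark_lt hβ hα
    have hJ0 : J < ω_ 1 := L.idx_lt_one hβ hα
    have h : {ζ | ζ < α ∧ walk θ c α ζ ≠ walk θ c β ζ} ⊆
        ({ζ | ζ < α ∧ walk θ c α ζ ≠ walk θ c (c β J) ζ} ∪
          {ζ | ζ < α ∧ walk θ c α ζ ≤ (1 + J) * ω}) ∪
        ⋃ j ∈ Iio J, (({ζ | ζ < c β j ∧ walk θ c (c β j) ζ ≠ walk θ c α ζ} ∪
          {ζ | ζ < α ∧ walk θ c α ζ ≤ (1 + j) * ω}) ∪ {c β j}) := by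
      rintro ζ ⟨hζ, h⟩
      have hζβ : ζ < β := lt_trans hζ hα
      have hle : idx θ c β ζ ≤ J := L.idx_mono hβ hα hζ.le
      have heq := L.walk_eq hβ hζβ
      rcases hle.eq_or_lt with h1 | h1
      · left
        by_contra hn
        apply h
        rw [heq, h1]
        simp only [mem_union, Set.mem_ofPred_eq, not_or, not_and, not_le, not_not] at hn
        rw [← hn.1 hζ, add_of_mul_le (hn.2 hζ)]
      · right
        rw [mem_iUnion₂]
        refine ⟨idx θ c β ζ, h1, ?_⟩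
        by_contra hn
        simp only [mem_union, Set.mem_ofPred_eq, mem_singleton_iff, not_or, not_and, not_le,
          not_not] at hn
        apply h
        have h2 := (L.idx_mem hβ hζβ).2
        have h3 : ζ < c β (idx θ c β ζ) := lt_of_le_of_ne h2 hn.2
        rw [heq, hn.1.1 h3, add_of_mul_le (hn.1.2 hζ)]
    refine Countable.mono h ?_
    refine Countable.union (Countable.union (ih _ hJβ (lt_trans hJβ hβ) α hJ1.2)
      (L.walk_countable hα2 (mul_omega_lt (one_add_lt hJ0)))) ?_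
    refine Countable.biUnion (countable_Iio hJ0) ?_
    intro j hj
    refine Countable.union (Countable.union (ih α hα hα2 _ ?_)
      (L.walk_countable hα2 (mul_omega_lt (one_add_lt (lt_trans hj hJ0))))) (countable_singleton _)
    exact (L.lt_of_lt_idx hβ hα hj).le

theorem Ladder.walk_nr (L : Ladder θ c) {β : Ordinal.{0}} (hβ : β < ω_ 2) :
    ∀ g m, g < m → m < β → walk θ c β g = walk θ c β m →
      ∃ ζ, g < ζ ∧ ζ < m ∧ walk θ c β ζ ≤ walk θ c β m := by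
  induction β using WellFoundedLT.induction with
  | _ β ih =>
    intro g m hgm hm heq
    have hg : g < β := lt_trans hgm hm
    have hle : idx θ c β g ≤ idx θ c β m := L.idx_mono hβ hm hgm.le
    have hgi := L.idx_mem hβ hg
    have hmi := L.idx_mem hβ hm
    rcases hle.eq_or_lt with h1 | h1
    · -- same index
      by_contra hn
      push Not at hn
      have e1 := L.walk_eq hβ hg
      have e2 := L.walk_eq hβ hm
      rw [e1, e2, h1] at heq
      have heq2 := add_left_cancel heq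
      rcases hmi.2.eq_or_lt with h2 | h2
      · rw [← h2, walk_zero le_rfl] at heq2
        exact absurd heq2 (L.walk_pos (lt_trans hm hβ) hgm).ne'
      · obtain ⟨ζ, h3, h4, h5⟩ := ih _ (L.mark_lt hβ hm) (lt_trans (L.mark_lt hβ hm) hβ) g m hgm h2
          heq2
        have h6 := hn ζ h3 h4
        have h7 : idx θ c β ζ = idx θ c β m :=
          le_antisymm (L.idx_mono hβ hm h4.le) (h1 ▸ L.idx_mono hβ (lt_trans h4 hm) h3.le)
        rw [L.walk_eq hβ (lt_trans h4 hm), h7, e2] at h6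
        exact absurd (lt_of_add_lt_add_left h6) (not_lt.2 h5)
    · have h2 : c β (idx θ c β g) < m := L.lt_of_lt_idx hβ hm h1
      have h3 := L.walk_mark hβ hgi.1
      have h4 : 1 + idx θ c β g < walk θ c β m :=
        lt_of_lt_of_le ((add_lt_add_iff_left 1).2 h1) (L.le_walk hβ hm)
      rcases hgi.2.eq_or_lt with h5 | h5
      · have h6 : walk θ c β g = 1 + idx θ c β g := by
          have := h3.2
          rwa [← h5] at this
        rw [← heq, h6] at h4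
        exact absurd h4 (lt_irrefl _)
      · exact ⟨c β (idx θ c β g), h5, h2, by rw [h3.2]; exact h4.le⟩

theorem Ladder.walk_re (L : Ladder θ c) {β : Ordinal.{0}} (hβ : β < ω_ 2) :
    ∀ δ ≤ β, 0 < δ → (∀ ζ < δ, ζ + 1 < δ) → ∃ η < δ, ∀ v, ∀ ζ₁, η < ζ₁ → ζ₁ < δ →
      walk θ c β ζ₁ ≤ v → (∃ ζ₂ < δ, ∀ ζ, ζ₂ < ζ → ζ < δ → v < walk θ c β ζ) →
      ∃ g, ζ₁ ≤ g ∧ g < δ ∧ walk θ c β g = v ∧ ∀ ζ, g < ζ → ζ < δ → v < walk θ c β ζ := by
  induction β using WellFoundedLT.induction with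
  | _ β ih =>
    intro δ hδ h0 hlim
    by_cases hc : ∀ s < δ, ∃ j < θ β, s < c β j ∧ c β j < δ
    · refine ⟨0, h0, ?_⟩
      rintro v ζ₁ hζ₁ hζ₁δ hv ⟨ζ₂, hζ₂, htail⟩
      have hζ₁β := lt_of_lt_of_le hζ₁δ hδ
      have h1 : 1 ≤ v := by
        refine le_trans ?_ ((L.le_walk hβ hζ₁β).trans hv)
        exact le_self_add
      obtain ⟨τ, rfl⟩ := exists_add_of_le h1
      obtain ⟨j, hj, hj1, hj2⟩ := hc ζ₂ hζ₂
      have h2 := htail _ hj1 hj2
      rw [(L.walk_mark hβ hj).2] at h2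
      have hτj : τ < j := lt_of_add_lt_add_left h2
      have hτθ : τ < θ β := lt_trans hτj hj
      have hτδ : c β τ < δ := lt_trans (L.mono β hβ _ _ hτj hj) hj2
      have hle : idx θ c β ζ₁ ≤ τ := le_of_add_le_add_left ((L.le_walk hβ hζ₁β).trans hv)
      refine ⟨c β τ, ?_, hτδ, (L.walk_mark hβ hτθ).2, ?_⟩
      · refine (L.idx_mem hβ hζ₁β).2.trans ?_
        rcases hle.eq_or_lt with h | h
        · rw [h]
        · exact (L.mono β hβ _ _ h hτθ).le
      · intro ζ hζ hζδ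
        have hζβ := lt_of_lt_of_le hζδ hδ
        refine lt_of_lt_of_le ?_ (L.le_walk hβ hζβ)
        refine (add_lt_add_iff_left 1).2 ?_
        by_contra h
        have h3 := not_lt.1 h
        have h4 := (L.idx_mem hβ hζβ).2
        have h5 : c β (idx θ c β ζ) ≤ c β τ := by
          rcases h3.eq_or_lt with h | h
          · rw [h]
          · exact (L.mono β hβ _ _ h hτθ).le
        exact absurd (h4.trans h5) (not_le.2 hζ)
    · push Not at hc
      obtain ⟨s, hs, hsc⟩ := hc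
      have hδβ : δ < β := by
        rcases hδ.eq_or_lt with h | h
        · exfalso
          subst h
          obtain ⟨j, hj, hj2⟩ := L.cof δ hβ (s + 1) (hlim s hs)
          have h1 : s < c δ j := lt_of_lt_of_le (Order.lt_add_one_iff.2 le_rfl) hj2
          exact absurd (L.lt δ hβ j hj) (not_lt.2 (hsc j hj h1))
        · exact h
      set J := idx θ c β δ with hJ
      have hJm := L.idx_mem hβ hδβ
      rw [← hJ] at hJm
      have hJβ : c β J < β := L.mark_lt hβ hδβ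
      have hidx : ∀ ζ, s < ζ → ζ < δ → idx θ c β ζ = J := by
        intro ζ h1 h2
        have hζβ : ζ < β := lt_trans h2 hδβ
        apply le_antisymm (L.idx_mono hβ hδβ h2.le)
        have h3 := L.idx_mem hβ hζβ
        exact idx_le h3.1 (hsc _ h3.1 (lt_of_lt_of_le h1 h3.2))
      obtain ⟨η, hη, hη2⟩ := ih _ hJβ (lt_trans hJβ hβ) δ hJm.2 h0 hlim
      refine ⟨max s η, max_lt hs hη, ?_⟩
      rintro v ζ₁ hζ₁ hζ₁δ hv ⟨ζ₂, hζ₂, htail⟩
      have hsζ₁ := lt_of_le_of_lt (le_max_left _ _) hζ₁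
      have hηζ₁ := lt_of_le_of_lt (le_max_right _ _) hζ₁
      have hw : ∀ ζ, s < ζ → ζ < δ → walk θ c β ζ = (1 + J) + walk θ c (c β J) ζ := by
        intro ζ h1 h2
        rw [L.walk_eq hβ (lt_trans h2 hδβ), hidx ζ h1 h2]
      have h1 : 1 + J ≤ v := by
        refine le_trans ?_ hv
        rw [hw ζ₁ hsζ₁ hζ₁δ]
        exact le_self_add
      obtain ⟨w, rfl⟩ := exists_add_of_le h1
      rw [hw ζ₁ hsζ₁ hζ₁δ] at hv
      obtain ⟨g, hg1, hg2, hg3, hg4⟩ := hη2 w ζ₁ hηζ₁ hζ₁δ (le_of_add_le_add_left hv)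
        ⟨max ζ₂ s, max_lt hζ₂ hs, by
          intro ζ h2 h3
          have h4 := htail ζ (lt_of_le_of_lt (le_max_left _ _) h2) h3
          rw [hw ζ (lt_of_le_of_lt (le_max_right _ _) h2) h3] at h4
          exact lt_of_add_lt_add_left h4⟩
      have hsg : s < g := lt_of_lt_of_le hsζ₁ hg1
      refine ⟨g, hg1, hg2, ?_, ?_⟩
      · rw [hw g hsg hg2, hg3]
      · intro ζ h2 h3
        rw [hw ζ (lt_trans hsg h2) h3]
        exact (add_lt_add_iff_left _).2 (hg4 ζ h2 h3)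

/-- The properties of the walk function used later. -/
structure Good (e : Ordinal.{0} → Ordinal.{0} → Ordinal.{0}) : Prop where
  zero : ∀ β ζ, β ≤ ζ → e β ζ = 0
  pos : ∀ β < ω_ 2, ∀ ζ < β, 0 < e β ζ
  lt : ∀ β < ω_ 2, ∀ ζ, e β ζ < ω_ 1
  ctbl : ∀ β < ω_ 2, ∀ ν < ω_ 1, {ζ | ζ < β ∧ e β ζ ≤ ν}.Countable
  coh : ∀ β < ω_ 2, ∀ α ≤ β, {ζ | ζ < α ∧ e α ζ ≠ e β ζ}.Countable
  nr : ∀ β < ω_ 2, ∀ g m, g < m → m < β → e β g = e β m →
      ∃ ζ, g < ζ ∧ ζ < m ∧ e β ζ ≤ e β m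
  re : ∀ β < ω_ 2, ∀ δ ≤ β, 0 < δ → (∀ ζ < δ, ζ + 1 < δ) → ∃ η < δ, ∀ v, ∀ ζ₁, η < ζ₁ → ζ₁ < δ →
      e β ζ₁ ≤ v → (∃ ζ₂ < δ, ∀ ζ, ζ₂ < ζ → ζ < δ → v < e β ζ) →
      ∃ g, ζ₁ ≤ g ∧ g < δ ∧ e β g = v ∧ ∀ ζ, g < ζ → ζ < δ → v < e β ζ

theorem exists_good : ∃ e, Good e := by
  obtain ⟨θ, c, L⟩ := exists_ladder
  exact ⟨walk θ c, ⟨fun _ _ h => walk_zero h, fun _ hβ _ h => L.walk_pos hβ h,
    fun _ hβ ζ => L.walk_lt hβ ζ, fun _ hβ _ hν => L.walk_countable hβ hν,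
    fun _ hβ => L.walk_coh hβ, fun _ hβ => L.walk_nr hβ, fun _ hβ => L.walk_re hβ⟩⟩

end H68.CL
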